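import Pool.Agent.helper275_conc.Partition

/-! Small intersections of the members of a binary linear code. -/

open Finset

namespace Pool.Agent.helper275_conc

variable {n : ℕ}

/-- closed under symmetric differences -/
def Closed (C : Finset (Finset (Fin n))) : Prop := ∀ A ∈ C, ∀ B ∈ C, symmDiff A B ∈ C

/-- the common elements of a tuple of sets -/
def inter {t : ℕ} (F : Fin t → Finset (Fin n)) : Finset (Fin n) := univ.filter (fun i => ∀ l, i ∈ F l)

lemma mem_inter' {t : ℕ} {F : Fin t → Finset (Fin n)} {i : Fin n} : i ∈ inter F ↔ ∀ l, i ∈ F l := by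
  simp [inter]

/-- the support of a word -/
def supp (c : Fin n → ZMod 2) : Finset (Fin n) := univ.filter (fun i => c i ≠ 0)

lemma mem_supp {c : Fin n → ZMod 2} {i : Fin n} : i ∈ supp c ↔ c i ≠ 0 := by simp [supp]

lemma supp_add (c d : Fin n → ZMod 2) : supp (c + d) = symmDiff (supp c) (supp d) := by
  have key : ∀ a b : ZMod 2, (a + b ≠ 0) ↔ ((a ≠ 0 ∧ ¬ b ≠ 0) ∨ (b ≠ 0 ∧ ¬ a ≠ 0)) := by decide
  ext i
  rw [Finset.mem_symmDiff, mem_supp, mem_supp, mem_supp, Pi.add_apply]
  exact key _ _

lemma supp_inj : Function.Injective (supp : (Fin n → ZMod 2) → Finset (Fin n)) := by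
  intro c d h
  have key : ∀ a b : ZMod 2, (a ≠ 0 ↔ b ≠ 0) → a = b := by decide
  funext i
  apply key
  rw [← mem_supp, ← mem_supp, h]

lemma supp_surj (A : Finset (Fin n)) : ∃ c : Fin n → ZMod 2, supp c = A := by
  refine ⟨fun i => if i ∈ A then 1 else 0, ?_⟩
  ext i
  rw [mem_supp]
  by_cases h : i ∈ A <;> simp [h]

/-- the linear code of a family of supports -/
def toSub (C : Finset (Finset (Fin n))) (hC : Closed C) (h0 : ∅ ∈ C) :
    Submodule (ZMod 2) (Fin n → ZMod 2) where
  carrier := {c | supp c ∈ C}
  add_mem' := by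
    intro a b ha hb
    simp only [Set.mem_ofPred_eq] at ha hb ⊢
    rw [supp_add]
    exact hC _ ha _ hb
  zero_mem' := by
    simp only [Set.mem_ofPred_eq]
    have : supp (0 : Fin n → ZMod 2) = ∅ := by
      ext i; simp [mem_supp]
    rw [this]; exact h0
  smul_mem' := by
    intro s a ha
    simp only [Set.mem_ofPred_eq] at ha ⊢
    have key : ∀ s : ZMod 2, s = 0 ∨ s = 1 := by decide
    rcases key s with rfl | rfl
    · have : supp ((0 : ZMod 2) • a) = ∅ := by
        ext i; simp [mem_supp]
      rw [this]; exact h0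
    · rw [one_smul]; exact ha

lemma mem_toSub {C : Finset (Finset (Fin n))} {hC : Closed C} {h0 : ∅ ∈ C} {c : Fin n → ZMod 2} :
    c ∈ toSub C hC h0 ↔ supp c ∈ C := Iff.rfl

lemma card_toSub (C : Finset (Finset (Fin n))) (hC : Closed C) (h0 : ∅ ∈ C) :
    C.card = 2 ^ Module.finrank (ZMod 2) (toSub C hC h0) := by
  classical
  have h1 : Nat.card (toSub C hC h0) = 2 ^ Module.finrank (ZMod 2) (toSub C hC h0) := by
    have := Module.natCard_eq_pow_finrank (K := ZMod 2) (V := toSub C hC h0)
    rwa [Nat.card_zmod] at this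
  rw [← h1]
  have e : (toSub C hC h0) ≃ C := by
    refine Equiv.ofBijective (fun c => ⟨supp c.1, c.2⟩) ⟨?_, ?_⟩
    · intro c d h
      exact Subtype.ext (supp_inj (congrArg Subtype.val h))
    · rintro ⟨A, hA⟩
      obtain ⟨c, hc⟩ := supp_surj A
      exact ⟨⟨c, by rw [mem_toSub, hc]; exact hA⟩, Subtype.ext hc⟩
  rw [Nat.card_congr e]
  simp

/-- the words that vanish on `X` -/
def vanish (X : Finset (Fin n)) : Submodule (ZMod 2) (Fin n → ZMod 2) where
  carrier := {c | ∀ i ∈ X, c i = 0}
  add_mem' := by
    intro a b ha hb i hi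
    rw [Pi.add_apply, ha i hi, hb i hi, add_zero]
  zero_mem' := by intro i _; rfl
  smul_mem' := by
    intro s a ha i hi
    rw [Pi.smul_apply, ha i hi, smul_zero]

lemma mem_vanish {X : Finset (Fin n)} {c : Fin n → ZMod 2} : c ∈ vanish X ↔ ∀ i ∈ X, c i = 0 := Iff.rfl

/-- the dimension of the restriction of the code `D` to `X` -/
noncomputable def rk (D : Submodule (ZMod 2) (Fin n → ZMod 2)) (X : Finset (Fin n)) : ℕ :=
  Module.finrank (ZMod 2) D - Module.finrank (ZMod 2) ↥(D ⊓ vanish X)

lemma fin_le (D : Submodule (ZMod 2) (Fin n → ZMod 2)) (X : Finset (Fin n)) :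
    Module.finrank (ZMod 2) ↥(D ⊓ vanish X) ≤ Module.finrank (ZMod 2) D :=
  Submodule.finrank_mono inf_le_left

lemma isRank_rk (D : Submodule (ZMod 2) (Fin n → ZMod 2)) : IsRank (rk D) := by
  constructor
  · have : D ⊓ vanish ∅ = D := by
      apply le_antisymm inf_le_left
      intro c hc
      exact ⟨hc, fun i hi => absurd hi (Finset.notMem_empty i)⟩
    unfold rk
    rw [this]
    omega
  · intro A B hAB
    have h1 : D ⊓ vanish B ≤ D ⊓ vanish A := by
      intro c hc
      exact ⟨hc.1, fun i hi => hc.2 i (hAB hi)⟩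
    have h2 := Submodule.finrank_mono h1
    unfold rk
    omega
  · intro A e
    have h1 : Module.finrank (ZMod 2) ↥(D ⊓ vanish A) ≤
        Module.finrank (ZMod 2) ↥(D ⊓ vanish (insert e A)) + 1 := by
      set W := D ⊓ vanish A with hW
      set φ : W →ₗ[ZMod 2] ZMod 2 := (LinearMap.proj e).comp W.subtype with hφ
      have h2 := LinearMap.finrank_range_add_finrank_ker φ
      have h3 : Module.finrank (ZMod 2) (LinearMap.range φ) ≤ 1 := by
        have := Submodule.finrank_le (LinearMap.range φ)
        rwa [Module.finrank_self] at this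
      have h4 : (LinearMap.ker φ).map W.subtype ≤ D ⊓ vanish (insert e A) := by
        rintro c ⟨w, hw, rfl⟩
        have hw' : φ w = 0 := hw
        refine ⟨w.2.1, fun i hi => ?_⟩
        rcases Finset.mem_insert.1 hi with rfl | hi
        · exact hw'
        · exact w.2.2 i hi
      have h5 := Submodule.finrank_mono h4
      rw [Submodule.finrank_map_subtype_eq] at h5
      omega
    have h2 := fin_le D A
    unfold rk
    omega
  · intro A B
    have h1 := Submodule.finrank_sup_add_finrank_inf_eq (D ⊓ vanish A) (D ⊓ vanish B)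
    have h2 : D ⊓ vanish A ⊓ (D ⊓ vanish B) = D ⊓ vanish (A ∪ B) := by
      ext c
      simp only [Submodule.mem_inf, mem_vanish, Finset.mem_union]
      constructor
      · rintro ⟨⟨h3, h4⟩, -, h5⟩
        exact ⟨h3, fun i hi => hi.elim (h4 i) (h5 i)⟩
      · rintro ⟨h3, h4⟩
        exact ⟨⟨h3, fun i hi => h4 i (Or.inl hi)⟩, h3, fun i hi => h4 i (Or.inr hi)⟩
    have h3 : D ⊓ vanish A ⊔ D ⊓ vanish B ≤ D ⊓ vanish (A ∩ B) := by
      apply sup_le
      · intro c hc
        exact ⟨hc.1, fun i hi => hc.2 i (Finset.mem_inter.1 hi).1⟩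
      · intro c hc
        exact ⟨hc.1, fun i hi => hc.2 i (Finset.mem_inter.1 hi).2⟩
    have h4 := Submodule.finrank_mono h3
    rw [h2] at h1
    have h5 := fin_le D (A ∩ B)
    have h6 := fin_le D (A ∪ B)
    have h7 := fin_le D A
    have h8 := fin_le D B
    unfold rk
    omega

lemma IsRank.union_le {α : Type*} [DecidableEq α] {f : Finset α → ℕ} (hf : IsRank f) (A : Finset α) :
    ∀ B : Finset α, f (A ∪ B) ≤ f A + B.card := by
  intro B
  induction B using Finset.induction_on with
  | empty => simp
  | insert e B he ih =>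
    have h1 := hf.insert_le (A ∪ B) e
    have e1 : A ∪ insert e B = insert e (A ∪ B) := by
      ext x; simp only [Finset.mem_union, Finset.mem_insert]; tauto
    rw [e1, Finset.card_insert_of_notMem he]
    omega

/-- **Small products.** If the dimension of the code is more than `n / t`, there are `t` words whose
product is different from zero and has weight at most `t - 1`. -/
lemma small_product (D : Submodule (ZMod 2) (Fin n → ZMod 2)) {t : ℕ} (ht : 2 ≤ t)
    (h : n < t * Module.finrank (ZMod 2) D) : ∃ c : Fin t → (Fin n → ZMod 2), (∀ l, c l ∈ D) ∧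
      (inter fun l => supp (c l)).Nonempty ∧ (inter fun l => supp (c l)).card ≤ t - 1 := by
  classical
  have hr := isRank_rk D
  set ψ : Finset (Fin n) → ℤ := fun F => ((F.card : ℤ) - t * rk D F) * (n + 1) + F.card with hψ
  obtain ⟨F, -, hF⟩ := Finset.exists_max_image (univ : Finset (Finset (Fin n))) ψ
    ⟨∅, Finset.mem_univ _⟩
  have hcard : ∀ Z : Finset (Fin n), (Z.card : ℤ) ≤ n := by
    intro Z
    have := Finset.card_le_univ Z
    rw [Fintype.card_fin] at this
    exact_mod_cast this
  have hstep : ∀ Z : Finset (Fin n), F ⊂ Z → (Z.card : ℤ) - t * rk D Z ≤ F.card - t * rk D F - 1 := by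
    intro Z hZ
    have h1 := hF Z (Finset.mem_univ _)
    have h2 : F.card < Z.card := Finset.card_lt_card hZ
    have h2' : (F.card : ℤ) < Z.card := by exact_mod_cast h2
    by_contra hcon
    push Not at hcon
    simp only [hψ] at h1
    have h3 : (F.card : ℤ) - t * rk D F ≤ Z.card - t * rk D Z := by omega
    have h4 : ((F.card : ℤ) - t * rk D F) * (n + 1) ≤ (Z.card - t * rk D Z) * (n + 1) :=
      mul_le_mul_of_nonneg_right h3 (by positivity)
    omega
  have hFne : F ≠ univ := by
    intro hFu
    have h1 := hF ∅ (Finset.mem_univ _)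
    have h2 : rk D univ = Module.finrank (ZMod 2) D := by
      have : D ⊓ vanish univ = ⊥ := by
        rw [eq_bot_iff]
        intro c hc
        rw [Submodule.mem_bot]
        funext i
        exact hc.2 i (Finset.mem_univ _)
      unfold rk
      rw [this, finrank_bot]
      omega
    rw [hFu] at h1
    simp only [hψ, hr.empty, Finset.card_empty, Finset.card_univ, Fintype.card_fin, h2] at h1
    have h3 : (n : ℤ) - t * Module.finrank (ZMod 2) D ≤ -1 := by
      have : (n : ℤ) < t * Module.finrank (ZMod 2) D := by exact_mod_cast h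
      omega
    have h4 : ((n : ℤ) - t * Module.finrank (ZMod 2) D) * (n + 1) ≤ (-1) * (n + 1) :=
      mul_le_mul_of_nonneg_right h3 (by positivity)
    simp at h1
    omega
  obtain ⟨i, hi⟩ : ∃ i, i ∉ F := by
    by_contra hcon
    push Not at hcon
    exact hFne (Finset.eq_univ_iff_forall.2 hcon)
  set S := (univ \ F).erase i with hS
  have hti : (2 : ℤ) ≤ t := by exact_mod_cast ht
  -- the rank of `F ∪ {i}`
  have hgen : ∀ Y ⊆ S, (Y.card : ℤ) ≤ t * (rk D (Y ∪ (F ∪ {i})) - rk D F) - 2 := by
    intro Y hY
    have hYi : i ∉ Y := fun h => Finset.notMem_erase i _ (hY h)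
    have hYF : Disjoint Y F := by
      rw [Finset.disjoint_left]
      intro x hx hxF
      have := (Finset.mem_erase.1 (hY hx)).2
      exact (Finset.mem_sdiff.1 this).2 hxF
    have h1 := hstep (Y ∪ (F ∪ {i})) (by
      rw [Finset.ssubset_iff_of_subset]
      · exact ⟨i, by simp, hi⟩
      · intro x hx; simp [hx])
    have h2 : (Y ∪ (F ∪ {i})).card = Y.card + (F.card + 1) := by
      rw [Finset.card_union_of_disjoint, Finset.card_union_of_disjoint, Finset.card_singleton]
      · simpa using hi
      · rw [Finset.disjoint_union_right]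
        exact ⟨hYF, by simpa using hYi⟩
    rw [h2] at h1
    push_cast at h1
    linarith
  have hFi : rk D (F ∪ {i}) = rk D F + 1 := by
    have h1 := hgen ∅ (Finset.empty_subset _)
    rw [Finset.empty_union, Finset.card_empty] at h1
    have h2 := hr.union_le F {i}
    rw [Finset.card_singleton] at h2
    have h3 : (0 : ℤ) < rk D (F ∪ {i}) - rk D F := by
      by_contra hcon
      push Not at hcon
      have : (t : ℤ) * (rk D (F ∪ {i}) - rk D F) ≤ 0 := mul_nonpos_of_nonneg_of_nonpos (by omega) hcon
      push_cast at h1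
      omega
    omega
  obtain ⟨I, hI1, hI2, hI3⟩ := partition (ι := Option (Fin t)) S.card S
    (fun o => match o with
      | none => fun X => min X.card (t - 2)
      | some _ => contract (rk D) (F ∪ {i})) rfl
    (by
      intro o
      cases o with
      | none => exact isRank_min _
      | some l => exact hr.contract _)
    (by
      intro Y hY
      rw [Fintype.sum_option]
      simp only [Finset.sum_const, Finset.card_univ, Fintype.card_fin, smul_eq_mul]
      have h1 := hgen Y hY
      have h2 := hr.mono (F ∪ {i}) (Y ∪ (F ∪ {i})) Finset.subset_union_right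
      unfold contract
      rcases Nat.lt_or_ge (t - 2) Y.card with h3 | h3
      · rw [min_eq_right h3.le]
        obtain ⟨z, hz⟩ := Nat.exists_eq_add_of_le h2
        rw [hz, hFi] at h1 ⊢
        have h4 : rk D F + 1 + z - (rk D F + 1) = z := by omega
        rw [h4]
        push_cast at h1
        have h5 : (Y.card : ℤ) ≤ t * z + (t - 2) := by
          have : (t : ℤ) * ((rk D F : ℤ) + 1 + z - rk D F) - 2 = t * z + (t - 2) := by ring
          linarith
        have h6 : ((Y.card : ℕ) : ℤ) ≤ ((t - 2 + t * z : ℕ) : ℤ) := by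
          push_cast [Nat.cast_sub ht]
          linarith
        exact_mod_cast h6
      · rw [min_eq_left h3]
        omega)
  have hword : ∀ l : Fin t, ∃ c ∈ D, (∀ x ∈ F ∪ I (some l), c x = 0) ∧ c i ≠ 0 := by
    intro l
    have h1 := hI3 (some l)
    simp only [contract] at h1
    have h2 := hr.mono (F ∪ {i}) (I (some l) ∪ (F ∪ {i})) Finset.subset_union_right
    have h3 := hr.union_le F (I (some l))
    have h4 : rk D (F ∪ I (some l)) < rk D (I (some l) ∪ (F ∪ {i})) := by omega
    have h5 : Module.finrank (ZMod 2) ↥(D ⊓ vanish (I (some l) ∪ (F ∪ {i}))) <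
        Module.finrank (ZMod 2) ↥(D ⊓ vanish (F ∪ I (some l))) := by
      have := fin_le D (I (some l) ∪ (F ∪ {i}))
      have := fin_le D (F ∪ I (some l))
      unfold rk at h4
      omega
    by_contra hcon
    push Not at hcon
    have h6 : D ⊓ vanish (F ∪ I (some l)) ≤ D ⊓ vanish (I (some l) ∪ (F ∪ {i})) := by
      intro c hc
      refine ⟨hc.1, fun x hx => ?_⟩
      have h7 := hcon c hc.1 hc.2
      simp only [Finset.mem_union, Finset.mem_singleton] at hx
      rcases hx with hx | hx | hx
      · exact hc.2 x (Finset.mem_union_right _ hx)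
      · exact hc.2 x (Finset.mem_union_left _ hx)
      · rw [hx]; exact h7
    have := Submodule.finrank_mono h6
    omega
  choose c hcD hc0 hci using hword
  refine ⟨c, hcD, ⟨i, mem_inter'.2 fun l => mem_supp.2 (hci l)⟩, ?_⟩
  have hsub : (inter fun l => supp (c l)) ⊆ insert i (I none) := by
    intro x hx
    rw [mem_inter'] at hx
    rw [Finset.mem_insert]
    by_contra hcon
    push Not at hcon
    have hl0 : 0 < t := by omega
    have hxF : x ∉ F := fun h => (mem_supp.1 (hx ⟨0, hl0⟩)) (hc0 _ x (Finset.mem_union_left _ h))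
    have hxS : x ∈ S := Finset.mem_erase.2 ⟨hcon.1, Finset.mem_sdiff.2 ⟨Finset.mem_univ _, hxF⟩⟩
    obtain ⟨o, ho⟩ := hI2 x hxS
    cases o with
    | none => exact hcon.2 ho
    | some l => exact (mem_supp.1 (hx l)) (hc0 l x (Finset.mem_union_right _ ho))
  have h1 := Finset.card_le_card hsub
  have h2 := Finset.card_insert_le i (I none)
  have h3 := hI3 none
  simp only at h3
  omega

end Pool.Agent.helper275_conc
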