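import Pool.Agent.helper275_conc.Struct

/-! The density of a set with few points in every translate of a cube. -/

open MeasureTheory Metric Filter Set
open scoped Topology

namespace Pool.Agent.helper275_conc
open Pool.Agent.H818R2 Pool.Agent.helper275_codes

section
variable {E : Type*} [NormedAddCommGroup E] [InnerProductSpace ℝ E] [FiniteDimensional ℝ E]
  [MeasurableSpace E] [BorelSpace E]

open Classical in
lemma region_count' {G : Set E} (hGm : MeasurableSet G) {a : ℝ} (ha : 0 ≤ a)
    (hG : G ⊆ closedBall 0 a) {N : ℕ} {F : Finset E}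
    (hN : ∀ z : E, (F.filter (fun x => x - z ∈ G)).card ≤ N)
    {T : ℝ} (hT : 0 ≤ T) (hFT : ∀ x ∈ F, ‖x‖ ≤ T) :
    F.card * volume.real G ≤ N * ((T + a) ^ Module.finrank ℝ E * vb E) := by
  have hfin : volume G ≠ ⊤ :=
    ((measure_mono hG).trans_lt measure_closedBall_lt_top).ne
  have key : ∑ x ∈ F, ∫⁻ z, indicator {z | x - z ∈ G} (fun _ => (1 : ENNReal)) z
      ≤ ∫⁻ z, indicator (closedBall (0 : E) (T + a)) (fun _ => (N : ENNReal)) z := by
    rw [← lintegral_finsetSum]
    · apply lintegral_mono
      intro z
      have e1 : ∑ x ∈ F, indicator {z | x - z ∈ G} (fun _ => (1 : ENNReal)) z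
          = ((F.filter (fun x => x - z ∈ G)).card : ENNReal) := by
        rw [Finset.card_filter, Nat.cast_sum]
        apply Finset.sum_congr rfl
        intro x _
        by_cases h : x - z ∈ G <;> simp [indicator, h]
      simp only [e1]
      by_cases hz : z ∈ closedBall (0 : E) (T + a)
      · rw [indicator_of_mem hz]
        exact_mod_cast hN z
      · have : F.filter (fun x => x - z ∈ G) = ∅ := by
          apply Finset.filter_eq_empty_iff.2
          intro x hx hxz
          apply hz
          have h3 := hG hxz
          rw [mem_closedBall_zero_iff] at h3 ⊢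
          have h4 := hFT x hx
          calc ‖z‖ = ‖x - (x - z)‖ := by congr 1; abel
            _ ≤ ‖x‖ + ‖x - z‖ := norm_sub_le _ _
            _ ≤ T + a := by linarith
        rw [this]; simp
    · intro x _
      apply Measurable.indicator measurable_const
      exact (measurable_const.sub measurable_id) hGm
  have e2 : ∀ x ∈ F, ∫⁻ z, indicator {z | x - z ∈ G} (fun _ => (1 : ENNReal)) z = volume G := by
    intro x _
    have hm : MeasurableSet {z : E | x - z ∈ G} := (measurable_const.sub measurable_id) hGm
    rw [lintegral_indicator_const hm, one_mul]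
    exact (Measure.measurePreserving_sub_left volume x).measure_preimage hGm.nullMeasurableSet
  rw [Finset.sum_congr rfl e2, Finset.sum_const, lintegral_indicator_const measurableSet_closedBall,
    nsmul_eq_mul] at key
  have h5 := ENNReal.toReal_mono (by
    exact ENNReal.mul_ne_top (ENNReal.natCast_ne_top N) measure_closedBall_lt_top.ne) key
  rw [ENNReal.toReal_mul, ENNReal.toReal_mul, ENNReal.toReal_natCast, ENNReal.toReal_natCast,
    ← measureReal_def, ← measureReal_def, vol_closedBall _ (by linarith)] at h5
  exact h5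

open Classical in
lemma upperDensity_le' {X : Set E} (hX : IsPacking X 1) {G : Set E} (hGm : MeasurableSet G)
    {a : ℝ} (ha : 0 ≤ a) (hG : G ⊆ closedBall 0 a) (hG0 : 0 < volume.real G) {N : ℕ}
    (hN : ∀ F : Finset E, (F : Set E) ⊆ X → ∀ z : E, (F.filter (fun x => x - z ∈ G)).card ≤ N) :
    upperDensity X 1 ≤ N * vb E / volume.real G := by
  set n := Module.finrank ℝ E with hn
  have h1 : ∀ᶠ R : ℝ in atTop,
      volume.real (ball (0 : E) R ∩ body X 1) / volume.real (ball (0 : E) R)
      ≤ N * vb E / volume.real G * ((R + 1 + a) / R) ^ n := by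
    filter_upwards [eventually_gt_atTop 0] with R hR
    have h2 := body_le hX R
    have h3 := region_count' hGm ha hG (N := N) (F := (finite_inter hX (R + 1)).toFinset)
      (hN _ (fun x hx => by
        simp only [Finite.coe_toFinset, mem_inter_iff] at hx
        exact hx.1)) (T := R + 1) (by linarith)
      (fun x hx => by
        simp only [Finite.mem_toFinset, mem_inter_iff, mem_closedBall_zero_iff] at hx
        exact hx.2)
    rw [vol_ball 0 hR]
    have h4 : ((finite_inter hX (R + 1)).toFinset.card : ℝ)
        ≤ N * ((R + 1 + a) ^ n * vb E) / volume.real G := by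
      rw [le_div_iff₀ hG0]; exact h3
    calc volume.real (ball (0 : E) R ∩ body X 1) / (R ^ n * vb E)
        ≤ (N * ((R + 1 + a) ^ n * vb E) / volume.real G * vb E) / (R ^ n * vb E) := by
          apply div_le_div_of_nonneg_right _ (by have := vb_pos (E := E); positivity)
          exact h2.trans (mul_le_mul_of_nonneg_right h4 vb_pos.le)
      _ = N * vb E / volume.real G * ((R + 1 + a) / R) ^ n := by
          have := (vb_pos (E := E)).ne'
          rw [div_pow]; field_simp
  have h5 : Tendsto (fun R : ℝ => N * vb E / volume.real G * ((R + 1 + a) / R) ^ n) atTop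
      (𝓝 (N * vb E / volume.real G * 1 ^ n)) := by
    apply Tendsto.const_mul
    apply Tendsto.pow
    have : Tendsto (fun R : ℝ => 1 + (1 + a) / R) atTop (𝓝 (1 + 0)) :=
      tendsto_const_nhds.add (tendsto_const_nhds.div_atTop tendsto_id)
    rw [add_zero] at this
    refine this.congr' ?_
    filter_upwards [eventually_gt_atTop 0] with R hR
    field_simp
    ring
  rw [one_pow, mul_one] at h5
  calc upperDensity X 1 ≤ limsup (fun R : ℝ => N * vb E / volume.real G * ((R + 1 + a) / R) ^ n)
        atTop := limsup_le_limsup h1 (ratio_cobdd X 1) h5.isBoundedUnder_le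
    _ = _ := h5.limsup_eq

end

open Classical in
/-- the density of a packing with at most `N` centres in every translate of the cube of side `L` -/
lemma dens_cube {n : ℕ} {X : Set (EuclideanSpace ℝ (Fin n))} {r L : ℝ} (hL : 0 < L)
    (hX : IsPacking X r) {N : ℕ}
    (hN : ∀ F : Finset (EuclideanSpace ℝ (Fin n)), (F : Set (EuclideanSpace ℝ (Fin n))) ⊆ X →
      ∀ z : EuclideanSpace ℝ (Fin n), (∀ x ∈ F, x - z ∈ cube n L) → F.card ≤ N) :
    upperDensity X r ≤ N * bv n r / L ^ n := by
  have hr := hX.1
  have hri : 0 < r⁻¹ := inv_pos.2 hr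
  have hY := isPacking_smul hX hri
  rw [inv_mul_cancel₀ hr.ne'] at hY
  have he := upperDensity_smul (X := X) (r := r) hri
  rw [inv_mul_cancel₀ hr.ne'] at he
  rw [← he]
  have hLr : 0 < L / r := by positivity
  have h1 := upperDensity_le' hY (cube_meas n (L / r)) (a := L / r * √(n : ℝ)) (by positivity)
    (cube_sub n hLr.le) (by rw [cube_vol n hLr.le]; positivity) (N := N) (by
      intro F hF z
      set F' := (F.filter (fun x => x - z ∈ cube n (L / r))).image (fun x => r • x) with hF'
      have hinj : Function.Injective (fun x : EuclideanSpace ℝ (Fin n) => r • x) :=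
        smul_right_injective _ hr.ne'
      rw [← Finset.card_image_of_injective _ hinj]
      apply hN _ _ (r • z)
      · intro x hx
        obtain ⟨y, hy, rfl⟩ := Finset.mem_image.1 hx
        rw [← smul_sub]
        intro i
        have := (Finset.mem_filter.1 hy).2 i
        simp only [PiLp.smul_apply, smul_eq_mul]
        refine ⟨mul_nonneg hr.le this.1, ?_⟩
        have h2 := mul_lt_mul_of_pos_left this.2 hr
        rwa [mul_div_cancel₀ _ hr.ne'] at h2
      · intro x hx
        obtain ⟨y, hy, rfl⟩ := Finset.mem_image.1 (Finset.mem_coe.1 hx)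
        obtain ⟨u, hu, hu2⟩ := hF (Finset.mem_coe.2 (Finset.mem_filter.1 hy).1)
        rw [← hu2]
        simp only [smul_smul, mul_inv_cancel₀ hr.ne', one_smul]
        exact hu)
  rw [cube_vol n hLr.le] at h1
  refine h1.trans (le_of_eq ?_)
  rw [bv_eq n hr, div_pow]
  field_simp

/-- the volume of the unit ball -/
lemma vb_le {n : ℕ} (hn : 0 < n) :
    vb (EuclideanSpace ℝ (Fin n)) ≤ √(2 * Real.pi * Real.exp 1 / n) ^ n := by
  have hn' : (0 : ℝ) < n := by exact_mod_cast hn
  have h1 := nbhd_cube (n := n) (X := {0}) (ℓ := 0) le_rfl (by simp) (μ := n / 8) (by positivity)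
  have h2 : Pool.Agent.R760.SP.nbhd ({0} : Finset (EuclideanSpace ℝ (Fin n))) = ball 0 2 := by
    simp [Pool.Agent.R760.SP.nbhd]
  rw [h2, vol_ball 0 (by norm_num), finrank_euclideanSpace_fin, zero_add] at h1
  have h3 : Real.exp (4 * (n / 8)) * √(Real.pi / (n / 8)) ^ n =
      2 ^ n * √(2 * Real.pi * Real.exp 1 / n) ^ n := by
    have e1 : Real.exp (4 * (n / 8)) = √(Real.exp 1) ^ n := by
      rw [← Real.exp_half 1, ← Real.exp_nat_mul]
      congr 1
      ring
    have e2 : √(Real.pi / (n / 8)) = 2 * √(2 * Real.pi / n) := by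
      rw [show Real.pi / (n / 8 : ℝ) = 2 ^ 2 * (2 * Real.pi / n) by ring,
        Real.sqrt_mul (by norm_num), Real.sqrt_sq (by norm_num)]
    have e3 : √(2 * Real.pi * Real.exp 1 / n) = √(2 * Real.pi / n) * √(Real.exp 1) := by
      rw [← Real.sqrt_mul (by positivity)]
      congr 1
      ring
    rw [e1, e2, e3, ← mul_pow, ← mul_pow]
    congr 1
    ring
  rw [h3] at h1
  exact le_of_mul_le_mul_left h1 (by positivity)

end Pool.Agent.helper275_conc
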