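import Pool.Agent.helper275_conc.Dens

/-! The density of lattices from Construction C. -/

open MeasureTheory Metric Filter Set
open scoped Topology

namespace Pool.Agent.helper275_conc
open Pool.Agent.H818R2 Pool.Agent.helper275_codes

variable {n a : ℕ} {C : ℕ → Finset (Finset (Fin n))}

/-- a translate of the cube of side `2^a` contains at most `∏ |C_i|` centres -/
lemma count_cube (F : Finset (EuclideanSpace ℝ (Fin n)))
    (hF : (F : Set (EuclideanSpace ℝ (Fin n))) ⊆ constructionC a C)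
    (z : EuclideanSpace ℝ (Fin n)) (hz : ∀ x ∈ F, x - z ∈ cube n (2 ^ a)) :
    F.card ≤ ∏ i ∈ Finset.range a, (C i).card := by
  classical
  have hrep : ∀ x : EuclideanSpace ℝ (Fin n), ∃ (c : ℕ → Finset (Fin n)) (w : Fin n → ℤ), x ∈ F →
      (∀ i < a, c i ∈ C i) ∧
      ∀ k, x k = ∑ i ∈ Finset.range a, 2 ^ i * (if k ∈ c i then (1 : ℝ) else 0) + 2 ^ a * w k := by
    intro x
    by_cases hx : x ∈ F
    · obtain ⟨c, w, h1, h2⟩ := hF hx
      exact ⟨c, w, fun _ => ⟨h1, h2⟩⟩
    · exact ⟨fun _ => ∅, fun _ => 0, fun h => absurd h hx⟩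
  choose c w hcw using hrep
  have e : ∏ i ∈ Finset.range a, (C i).card =
      (Fintype.piFinset fun i : Fin a => C i).card := by
    rw [Fintype.card_piFinset, Finset.prod_range]
  rw [e]
  apply Finset.card_le_card_of_injOn (fun x => fun i : Fin a => c x i)
  · intro x hx
    rw [Finset.mem_coe, Fintype.mem_piFinset]
    intro i
    exact (hcw x hx).1 i i.2
  · intro x hx y hy hxy
    ext k
    have h1 := (hcw x hx).2 k
    have h2 := (hcw y hy).2 k
    have h3 : ∑ i ∈ Finset.range a, (2 : ℝ) ^ i * (if k ∈ c x i then (1 : ℝ) else 0) =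
        ∑ i ∈ Finset.range a, 2 ^ i * (if k ∈ c y i then (1 : ℝ) else 0) := by
      apply Finset.sum_congr rfl
      intro i hi
      have h4 : c x i = c y i := congrFun hxy ⟨i, Finset.mem_range.1 hi⟩
      rw [h4]
    have h5 := hz x hx k
    have h6 := hz y hy k
    simp only [PiLp.sub_apply] at h5 h6
    have hpos : (0 : ℝ) < 2 ^ a := by positivity
    have h7 : |(2 : ℝ) ^ a * ((w x k : ℝ) - w y k)| < 2 ^ a * 1 := by
      have : (2 : ℝ) ^ a * ((w x k : ℝ) - w y k) = x k - y k := by rw [h1, h2, h3]; ring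
      rw [this, mul_one, abs_lt]
      constructor <;> linarith [h5.1, h5.2, h6.1, h6.2]
    rw [abs_mul, abs_of_pos hpos] at h7
    have h8 := lt_of_mul_lt_mul_left h7 hpos.le
    have h9 : |w x k - w y k| < 1 := by exact_mod_cast h8
    have h10 : w x k = w y k := by
      rw [Int.abs_lt_one_iff] at h9
      omega
    rw [h1, h2, h3, h10]

/-- an elementary sum -/
lemma sum_v : ∀ q : ℕ, ∑ m ∈ Finset.range q, (1 / 2 : ℝ) ^ (2 * m / 3) ≤ 10 / 3 := by
  intro q
  induction q using Nat.strong_induction_on with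
  | _ q ih =>
    rcases Nat.lt_or_ge q 3 with h | h
    · interval_cases q <;> norm_num [Finset.sum_range_succ]
    · obtain ⟨m, rfl⟩ : ∃ m, q = 3 + m := ⟨q - 3, by omega⟩
      rw [Finset.sum_range_add]
      have h1 := ih m (by omega)
      have h2 : ∀ x ∈ Finset.range m, (1 / 2 : ℝ) ^ (2 * (3 + x) / 3) =
          1 / 4 * (1 / 2 : ℝ) ^ (2 * x / 3) := by
        intro x _
        rw [show 2 * (3 + x) / 3 = 2 + 2 * x / 3 by omega, pow_add]
        norm_num
      rw [Finset.sum_congr rfl h2, ← Finset.mul_sum]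
      have h3 : ∑ x ∈ Finset.range 3, (1 / 2 : ℝ) ^ (2 * x / 3) = 5 / 2 := by
        norm_num [Finset.sum_range_succ]
      rw [h3]
      linarith

lemma sum_bound {u : ℕ → ℝ} {N M : ℝ} (hN : 0 ≤ N) (hM0 : 0 < M) (hMa : M ≤ 4 ^ a)
    (h1 : ∀ i < a, ∀ j : ℕ, (j = 0 ∨ (8 : ℝ) ^ j * 4 ^ i ≤ M) → 2 ^ j * u i ≤ N) :
    ∑ i ∈ Finset.range a, u i ≤ N * (a - Real.logb 2 M / 2 + 10 / 3) := by
  have h10 : ∀ i < a, u i ≤ N := fun i hi => by simpa using h1 i hi 0 (Or.inl rfl)
  rcases lt_or_ge M 1 with hB | hB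
  · have h3 : ∑ i ∈ Finset.range a, u i ≤ ∑ _i ∈ Finset.range a, N :=
      Finset.sum_le_sum fun i hi => h10 i (Finset.mem_range.1 hi)
    rw [Finset.sum_const, Finset.card_range, nsmul_eq_mul] at h3
    have h4 : Real.logb 2 M ≤ 0 := Real.logb_nonpos (by norm_num) hM0.le hB.le
    nlinarith
  · obtain ⟨p, hp1, hp2⟩ : ∃ p : ℕ, (4 : ℝ) ^ p ≤ M ∧ M < 4 ^ (p + 1) :=
      exists_nat_pow_near hB (by norm_num)
    have hv : ∀ i < a, u i ≤ N * (1 / 2 : ℝ) ^ (2 * (p - i) / 3) := by
      intro i hi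
      have h2 : 2 * (p - i) / 3 = 0 ∨ (8 : ℝ) ^ (2 * (p - i) / 3) * 4 ^ i ≤ M := by
        rcases Nat.lt_or_ge i p with h | h
        · right
          refine le_trans ?_ hp1
          have e1 : (8 : ℝ) ^ (2 * (p - i) / 3) = 2 ^ (3 * (2 * (p - i) / 3)) := by
            rw [pow_mul]; norm_num
          have e2 : (4 : ℝ) ^ i = 2 ^ (2 * i) := by rw [pow_mul]; norm_num
          have e3 : (4 : ℝ) ^ p = 2 ^ (2 * p) := by rw [pow_mul]; norm_num
          rw [e1, e2, e3, ← pow_add]
          apply pow_le_pow_right₀ (by norm_num)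
          omega
        · left
          omega
      have h3 := h1 i hi _ h2
      have h4 : (0 : ℝ) < 2 ^ (2 * (p - i) / 3) := by positivity
      rw [one_div, inv_pow, ← div_eq_mul_inv, le_div_iff₀ h4]
      linarith
    have hlog : Real.logb 2 M ≤ 2 * (p + 1) := by
      have h7 := Real.logb_le_logb_of_le (b := 2) (by norm_num) hM0 hp2.le
      rw [Real.logb_pow] at h7
      have h8 : Real.logb 2 4 = 2 := by
        rw [show (4 : ℝ) = 2 ^ 2 by norm_num, Real.logb_pow, Real.logb_self_eq_one (by norm_num)]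
        norm_num
      rw [h8] at h7
      push_cast at h7
      linarith
    have hloga : Real.logb 2 M ≤ 2 * a := by
      have h7 := Real.logb_le_logb_of_le (b := 2) (by norm_num) hM0 hMa
      rw [Real.logb_pow] at h7
      have h8 : Real.logb 2 4 = 2 := by
        rw [show (4 : ℝ) = 2 ^ 2 by norm_num, Real.logb_pow, Real.logb_self_eq_one (by norm_num)]
        norm_num
      rw [h8] at h7
      linarith
    have hrefl : ∑ i ∈ Finset.range (p + 1), (1 / 2 : ℝ) ^ (2 * (p - i) / 3) ≤ 10 / 3 := by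
      have h2 := Finset.sum_range_reflect (fun m => (1 / 2 : ℝ) ^ (2 * m / 3)) (p + 1)
      have h3 : ∀ i ∈ Finset.range (p + 1), (1 / 2 : ℝ) ^ (2 * (p - i) / 3) =
          (1 / 2 : ℝ) ^ (2 * (p + 1 - 1 - i) / 3) := by
        intro i _
        rw [Nat.add_sub_cancel]
      rw [Finset.sum_congr rfl h3, h2]
      exact sum_v _
    rcases Nat.lt_or_ge p a with hpa | hpa
    · obtain ⟨m, rfl⟩ : ∃ m, a = (p + 1) + m := ⟨a - (p + 1), by omega⟩
      rw [Finset.sum_range_add]
      have h3 : ∑ i ∈ Finset.range (p + 1), u i ≤ N * (10 / 3) := by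
        have h4 : ∑ i ∈ Finset.range (p + 1), u i ≤
            ∑ i ∈ Finset.range (p + 1), N * (1 / 2 : ℝ) ^ (2 * (p - i) / 3) :=
          Finset.sum_le_sum fun i hi => hv i (by have := Finset.mem_range.1 hi; omega)
        rw [← Finset.mul_sum] at h4
        exact h4.trans (mul_le_mul_of_nonneg_left hrefl hN)
      have h5 : ∑ i ∈ Finset.range m, u (p + 1 + i) ≤ N * m := by
        have h4 : ∑ i ∈ Finset.range m, u (p + 1 + i) ≤ ∑ _i ∈ Finset.range m, N :=
          Finset.sum_le_sum fun i hi => h10 _ (by have := Finset.mem_range.1 hi; omega)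
        rw [Finset.sum_const, Finset.card_range, nsmul_eq_mul] at h4
        linarith
      push_cast
      nlinarith
    · have h3 : ∑ i ∈ Finset.range a, u i ≤ N * (10 / 3) := by
        have h4 : ∑ i ∈ Finset.range a, u i ≤
            ∑ i ∈ Finset.range a, N * (1 / 2 : ℝ) ^ (2 * (p - i) / 3) :=
          Finset.sum_le_sum fun i hi => hv i (Finset.mem_range.1 hi)
        have h5 : ∑ i ∈ Finset.range a, (1 / 2 : ℝ) ^ (2 * (p - i) / 3) ≤
            ∑ i ∈ Finset.range (p + 1), (1 / 2 : ℝ) ^ (2 * (p - i) / 3) :=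
          Finset.sum_le_sum_of_subset_of_nonneg
            (Finset.range_subset_range.2 (by omega)) (fun _ _ _ => by positivity)
        rw [← Finset.mul_sum] at h4
        exact h4.trans (mul_le_mul_of_nonneg_left (h5.trans hrefl) hN)
      nlinarith

/-- **Lattices from Construction C.** -/
theorem main {Λ : AddSubgroup (EuclideanSpace ℝ (Fin n))} (hn0 : 0 < n)
    (hΛ : (Λ : Set (EuclideanSpace ℝ (Fin n))) = constructionC a C) {r : ℝ}
    (hP : IsPacking (Λ : Set (EuclideanSpace ℝ (Fin n))) r) :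
    upperDensity (Λ : Set (EuclideanSpace ℝ (Fin n))) r ≤ (21 / √n) ^ n := by
  classical
  have hn' : (0 : ℝ) < n := by exact_mod_cast hn0
  have hr := hP.1
  set M : ℝ := (2 * r) ^ 2 with hM
  have hM0 : 0 < M := by positivity
  have hMa : M ≤ 4 ^ a := top_ge hn0 hΛ hP
  have hlc : ∀ i (hi : i < a), Real.logb 2 (C i).card =
      Module.finrank (ZMod 2) (toSub (C i) (closed_codes hΛ hi) (empty_mem hΛ hi)) := by
    intro i hi
    have h1 := card_toSub (C i) (closed_codes hΛ hi) (empty_mem hΛ hi)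
    have h2 : ((C i).card : ℝ) =
        2 ^ Module.finrank (ZMod 2) (toSub (C i) (closed_codes hΛ hi) (empty_mem hΛ hi)) := by
      exact_mod_cast h1
    rw [h2, Real.logb_pow, Real.logb_self_eq_one (by norm_num), mul_one]
  have hsum := sum_bound (u := fun i => Real.logb 2 (C i).card) (N := (n : ℝ)) hn'.le hM0 hMa
    (by
      intro i hi j hj
      simp only [hlc i hi]
      have h1 := dim_le hn0 hΛ hP hi hj
      exact_mod_cast h1)
  have hCpos : ∀ i ∈ Finset.range a, (0 : ℝ) < ((C i).card : ℝ) := by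
    intro i hi
    have : 0 < (C i).card := Finset.card_pos.2 ⟨∅, empty_mem hΛ (Finset.mem_range.1 hi)⟩
    exact_mod_cast this
  have hprod : ((∏ i ∈ Finset.range a, (C i).card : ℕ) : ℝ) ≤
      (2 ^ a * (2 : ℝ) ^ ((7 : ℝ) / 3) * (1 / r)) ^ n := by
    have hpp : (0 : ℝ) < ((∏ i ∈ Finset.range a, (C i).card : ℕ) : ℝ) := by
      push_cast
      exact Finset.prod_pos hCpos
    rw [← Real.logb_le_logb (b := 2) (by norm_num) hpp (by positivity), Real.logb_pow]
    have e1 : Real.logb 2 ((∏ i ∈ Finset.range a, (C i).card : ℕ) : ℝ) =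
        ∑ i ∈ Finset.range a, Real.logb 2 (C i).card := by
      push_cast
      exact Real.logb_prod _ _ (fun i hi => (hCpos i hi).ne')
    have e2 : Real.logb 2 (2 ^ a * (2 : ℝ) ^ ((7 : ℝ) / 3) * (1 / r)) =
        a - Real.logb 2 M / 2 + 10 / 3 := by
      rw [hM, Real.logb_mul (by positivity) (by positivity), Real.logb_mul (by positivity)
        (by positivity), one_div, Real.logb_inv, Real.logb_pow, Real.logb_self_eq_one (by norm_num),
        Real.logb_rpow (by norm_num) (by norm_num), Real.logb_pow,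
        Real.logb_mul (by norm_num) hr.ne', Real.logb_self_eq_one (by norm_num)]
      push_cast
      ring
    rw [e1, e2]
    exact hsum
  have hd := dens_cube (L := (2 : ℝ) ^ a) (by positivity) hP
    (N := ∏ i ∈ Finset.range a, (C i).card) (fun F hF z hz => count_cube F (hΛ ▸ hF) z hz)
  refine hd.trans ?_
  rw [bv_eq n hr]
  have hv := vb_le hn0
  have hv0 := vb_pos (E := EuclideanSpace ℝ (Fin n))
  calc ((∏ i ∈ Finset.range a, (C i).card : ℕ) : ℝ) * (r ^ n * vb (EuclideanSpace ℝ (Fin n))) /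
        ((2 : ℝ) ^ a) ^ n
      ≤ (2 ^ a * (2 : ℝ) ^ ((7 : ℝ) / 3) * (1 / r)) ^ n *
        (r ^ n * √(2 * Real.pi * Real.exp 1 / n) ^ n) / ((2 : ℝ) ^ a) ^ n := by
        apply div_le_div_of_nonneg_right _ (by positivity)
        apply mul_le_mul hprod (mul_le_mul_of_nonneg_left hv (by positivity)) (by positivity)
          (by positivity)
    _ = ((2 : ℝ) ^ ((7 : ℝ) / 3) * √(2 * Real.pi * Real.exp 1 / n)) ^ n := by
        rw [← mul_pow, ← mul_pow, ← div_pow]
        congr 1
        field_simp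
    _ ≤ (21 / √n) ^ n := by
        apply pow_le_pow_left₀ (by positivity)
        have c1 : (2 : ℝ) ^ ((7 : ℝ) / 3) ≤ 5.04 := by
          have h3 : ((2 : ℝ) ^ ((7 : ℝ) / 3)) ^ 3 = 128 := by
            rw [← Real.rpow_natCast, ← Real.rpow_mul (by norm_num)]
            norm_num
          by_contra hcon
          push Not at hcon
          have := pow_lt_pow_left₀ hcon (by norm_num) (n := 3) (by norm_num)
          rw [h3] at this
          norm_num at this
        have c2 : √(2 * Real.pi * Real.exp 1) ≤ 4.14 := by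
          rw [Real.sqrt_le_left (by norm_num)]
          have h3 := Real.pi_lt_d2
          have h4 := Real.exp_one_lt_d9
          have h5 := Real.pi_pos
          have h6 := Real.exp_pos 1
          nlinarith
        have hsn : 0 < √(n : ℝ) := Real.sqrt_pos.2 hn'
        rw [Real.sqrt_div' _ hn'.le]
        rw [mul_div_assoc', div_le_div_iff_of_pos_right hsn]
        calc (2 : ℝ) ^ ((7 : ℝ) / 3) * √(2 * Real.pi * Real.exp 1)
            ≤ 5.04 * 4.14 := by
              apply mul_le_mul c1 c2 (Real.sqrt_nonneg _) (by norm_num)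
          _ ≤ 21 := by norm_num

end Pool.Agent.helper275_conc
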