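import Pool.Agent.helper275_conc.Final

/-! Kissing numbers of lattices from Construction C. -/

open MeasureTheory Metric Filter
open scoped Topology

namespace Pool.Agent.helper275_conc
open Pool.Agent.H818R2 Pool.Agent.helper275_codes

variable {n a : ℕ} {C : ℕ → Finset (Finset (Fin n))}

section short
open Finset

/-- zero and the signed unit vectors -/
def U (n : ℕ) : Finset (Fin n → ℤ) :=
  insert 0 (univ.image (fun i => Pi.single i (1 : ℤ)) ∪ univ.image (fun i => Pi.single i (-1 : ℤ)))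

lemma card_U (n : ℕ) : (U n).card ≤ 2 * n + 1 := by
  refine (Finset.card_insert_le _ _).trans ?_
  have h1 : (univ.image (fun i : Fin n => (Pi.single i (1 : ℤ) : Fin n → ℤ))).card ≤ n := by
    have := Finset.card_image_le (s := (univ : Finset (Fin n)))
      (f := fun i => (Pi.single i (1 : ℤ) : Fin n → ℤ))
    simpa using this
  have h2 : (univ.image (fun i : Fin n => (Pi.single i (-1 : ℤ) : Fin n → ℤ))).card ≤ n := by
    have := Finset.card_image_le (s := (univ : Finset (Fin n)))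
      (f := fun i => (Pi.single i (-1 : ℤ) : Fin n → ℤ))
    simpa using this
  have h3 := Finset.card_union_le (univ.image (fun i : Fin n => (Pi.single i (1 : ℤ) : Fin n → ℤ)))
    (univ.image (fun i : Fin n => (Pi.single i (-1 : ℤ) : Fin n → ℤ)))
  omega

/-- sums of `K` such vectors -/
def short (n : ℕ) : ℕ → Finset (Fin n → ℤ)
  | 0 => {0}
  | K + 1 => (short n K ×ˢ U n).image (fun p => p.1 + p.2)

lemma card_short (n : ℕ) : ∀ K, (short n K).card ≤ (2 * n + 1) ^ K := by
  intro K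
  induction K with
  | zero => simp [short]
  | succ K ih =>
    rw [short]
    refine Finset.card_image_le.trans ?_
    rw [Finset.card_product, pow_succ]
    exact Nat.mul_le_mul ih (card_U n)

lemma mem_short {n : ℕ} : ∀ (K : ℕ) (y : Fin n → ℤ), ∑ i, |y i| ≤ K → y ∈ short n K := by
  intro K
  induction K with
  | zero =>
    intro y hy
    rw [short, Finset.mem_singleton]
    funext i
    have h1 : |y i| ≤ ∑ i, |y i| :=
      Finset.single_le_sum (f := fun i => |y i|) (fun _ _ => abs_nonneg _) (Finset.mem_univ i)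
    have h2 : |y i| ≤ 0 := h1.trans (by exact_mod_cast hy)
    exact abs_nonpos_iff.1 h2
  | succ K ih =>
    intro y hy
    rw [short, Finset.mem_image]
    by_cases h : ∀ i, y i = 0
    · refine ⟨(0, 0), ?_, ?_⟩
      · rw [Finset.mem_product]
        exact ⟨ih 0 (by simp), Finset.mem_insert_self _ _⟩
      · funext i; simp [h i]
    · push Not at h
      obtain ⟨i, hi⟩ := h
      have hsplit : ∀ w : Fin n → ℤ, ∑ j, |w j| = |w i| + ∑ j ∈ univ.erase i, |w j| := fun w =>
        (Finset.add_sum_erase univ (fun j => |w j|) (Finset.mem_univ i)).symm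
      rcases lt_or_gt_of_ne hi with hneg | hpos
      · refine ⟨(y - Pi.single i (-1), Pi.single i (-1)), ?_, by simp⟩
        rw [Finset.mem_product]
        refine ⟨ih _ ?_, ?_⟩
        · rw [hsplit y] at hy
          rw [hsplit]
          have h1 : ∑ j ∈ univ.erase i, |(y - Pi.single i (-1) : Fin n → ℤ) j| =
              ∑ j ∈ univ.erase i, |y j| := by
            apply Finset.sum_congr rfl
            intro j hj
            have : j ≠ i := Finset.ne_of_mem_erase hj
            simp [this]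
          have h2 : |(y - Pi.single i (-1) : Fin n → ℤ) i| = |y i| - 1 := by
            simp only [Pi.sub_apply, Pi.single_eq_same, sub_neg_eq_add]
            rw [abs_of_neg hneg, abs_of_nonpos (by omega)]
            ring
          rw [h1, h2]
          push_cast at hy
          linarith
        · rw [U, Finset.mem_insert, Finset.mem_union, Finset.mem_image, Finset.mem_image]
          exact Or.inr (Or.inr ⟨i, Finset.mem_univ i, rfl⟩)
      · refine ⟨(y - Pi.single i 1, Pi.single i 1), ?_, by simp⟩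
        rw [Finset.mem_product]
        refine ⟨ih _ ?_, ?_⟩
        · rw [hsplit y] at hy
          rw [hsplit]
          have h1 : ∑ j ∈ univ.erase i, |(y - Pi.single i 1 : Fin n → ℤ) j| =
              ∑ j ∈ univ.erase i, |y j| := by
            apply Finset.sum_congr rfl
            intro j hj
            have : j ≠ i := Finset.ne_of_mem_erase hj
            simp [this]
          have h2 : |(y - Pi.single i 1 : Fin n → ℤ) i| = |y i| - 1 := by
            simp only [Pi.sub_apply, Pi.single_eq_same]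
            rw [abs_of_pos hpos, abs_of_nonneg (by omega)]
          rw [h1, h2]
          push_cast at hy
          linarith
        · rw [U, Finset.mem_insert, Finset.mem_union, Finset.mem_image, Finset.mem_image]
          exact Or.inr (Or.inl ⟨i, Finset.mem_univ i, rfl⟩)

lemma mem_short' {n K : ℕ} {y : Fin n → ℤ} (h : ∑ i, y i ^ 2 ≤ K) : y ∈ short n K := by
  apply mem_short
  refine le_trans (Finset.sum_le_sum fun i _ => ?_) h
  rcases eq_or_ne (y i) 0 with h0 | h0
  · simp [h0]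
  · have h1 : 1 ≤ |y i| := Int.one_le_abs h0
    rw [← sq_abs]
    nlinarith

end short

/-- the number of vectors of minimal length in terms of the codes -/
theorem kiss_codes (F : Finset (EuclideanSpace ℝ (Fin n)))
    (hF : (F : Set (EuclideanSpace ℝ (Fin n))) ⊆ constructionC a C) {M : ℝ}
    (hM : ∀ x ∈ F, ‖x‖ ^ 2 ≤ M) {p K : ℕ} (hp : p ≤ a) (hK : 4 * M ≤ K * 4 ^ p) :
    F.card ≤ (2 * n + 1) ^ K * ∏ i ∈ Finset.range p, (C i).card := by
  classical
  have hrep : ∀ x : EuclideanSpace ℝ (Fin n), ∃ (c : ℕ → Finset (Fin n)) (w : Fin n → ℤ), x ∈ F →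
      (∀ i < a, c i ∈ C i) ∧
      ∀ k, x k = ∑ i ∈ Finset.range a, 2 ^ i * (if k ∈ c i then (1 : ℝ) else 0) + 2 ^ a * w k := by
    intro x
    by_cases hx : x ∈ F
    · obtain ⟨c, w, h1, h2⟩ := hF hx
      exact ⟨c, w, fun _ => ⟨h1, h2⟩⟩
    · exact ⟨fun _ => ∅, fun _ => 0, fun h => absurd h hx⟩
  choose c w hcw using hrep
  -- the higher digits
  have hdig : ∀ x ∈ F, ∃ u : Fin n → ℤ, ∀ k,
      x k = ∑ i ∈ Finset.range p, 2 ^ i * (if k ∈ c x i then (1 : ℝ) else 0) + 2 ^ p * u k := by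
    intro x hx
    obtain ⟨m, rfl⟩ := Nat.exists_eq_add_of_le hp
    refine ⟨fun k => ∑ j ∈ Finset.range m, 2 ^ j * (if k ∈ c x (p + j) then (1 : ℤ) else 0) +
      2 ^ m * w x k, fun k => ?_⟩
    rw [(hcw x hx).2 k, Finset.sum_range_add]
    push_cast
    rw [mul_add, Finset.mul_sum]
    have e1 : ∀ j ∈ Finset.range m, (2 : ℝ) ^ p * (2 ^ j * (if k ∈ c x (p + j) then (1 : ℝ) else 0)) =
        2 ^ (p + j) * (if k ∈ c x (p + j) then (1 : ℝ) else 0) := by
      intro j _
      rw [pow_add]; ring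
    rw [Finset.sum_congr rfl e1, pow_add]
    ring
  have hfib : ∀ b ∈ F.image (fun x => fun i : Fin p => c x i),
      (F.filter fun x => (fun i : Fin p => c x i) = b).card ≤ (2 * n + 1) ^ K := by
    intro b hb
    obtain ⟨x0, hx0, rfl⟩ := Finset.mem_image.1 hb
    obtain ⟨u0, hu0⟩ := hdig x0 hx0
    have hy : ∀ x : EuclideanSpace ℝ (Fin n), ∃ y : Fin n → ℤ,
        x ∈ F.filter (fun x => (fun i : Fin p => c x i) = fun i : Fin p => c x0 i) →
        ∀ k, x k - x0 k = 2 ^ p * y k := by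
      intro x
      by_cases hx : x ∈ F.filter (fun x => (fun i : Fin p => c x i) = fun i : Fin p => c x0 i)
      · obtain ⟨h1, h2⟩ := Finset.mem_filter.1 hx
        obtain ⟨u, hu⟩ := hdig x h1
        refine ⟨u - u0, fun _ k => ?_⟩
        rw [hu k, hu0 k]
        have h3 : ∑ i ∈ Finset.range p, (2 : ℝ) ^ i * (if k ∈ c x i then (1 : ℝ) else 0) =
            ∑ i ∈ Finset.range p, 2 ^ i * (if k ∈ c x0 i then (1 : ℝ) else 0) := by
          apply Finset.sum_congr rfl
          intro i hi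
          have h4 : c x i = c x0 i := congrFun h2 ⟨i, Finset.mem_range.1 hi⟩
          rw [h4]
        rw [h3]
        push_cast [Pi.sub_apply]
        ring
      · exact ⟨0, fun h => absurd h hx⟩
    choose y hy using hy
    refine le_trans ?_ (card_short n K)
    apply Finset.card_le_card_of_injOn y
    · intro x hx
      have hx1 := hy x hx
      have hxF : x ∈ F := (Finset.mem_filter.1 hx).1
      apply mem_short'
      have h1 : ‖x - x0‖ ^ 2 ≤ 4 * M := by
        have h2 := hM x hxF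
        have h3 := hM x0 hx0
        have h4 : ‖x - x0‖ ≤ ‖x‖ + ‖x0‖ := norm_sub_le _ _
        have h5 := norm_nonneg (x - x0)
        have h6 : ‖x - x0‖ ^ 2 ≤ (‖x‖ + ‖x0‖) ^ 2 := pow_le_pow_left₀ h5 h4 2
        nlinarith [sq_nonneg (‖x‖ - ‖x0‖)]
      have h2 : ‖x - x0‖ ^ 2 = 4 ^ p * ∑ i, (y x i : ℝ) ^ 2 := by
        rw [EuclideanSpace.norm_sq_eq, Finset.mul_sum]
        apply Finset.sum_congr rfl
        intro k _
        rw [PiLp.sub_apply, hx1 k, Real.norm_eq_abs, sq_abs, mul_pow, ← pow_mul, mul_comm p 2, pow_mul]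
        norm_num
      have h3 : (4 : ℝ) ^ p * ∑ i, (y x i : ℝ) ^ 2 ≤ 4 ^ p * K := by
        rw [← h2]; linarith
      have h4 := le_of_mul_le_mul_left h3 (by positivity)
      exact_mod_cast h4
    · intro x hx x' hx' hxx'
      ext k
      have h1 := hy x hx k
      have h2 := hy x' hx' k
      rw [hxx'] at h1
      linarith
  refine (Finset.card_le_mul_card_image F _ hfib).trans (Nat.mul_le_mul_left _ ?_)
  have e : ∏ i ∈ Finset.range p, (C i).card = (Fintype.piFinset fun i : Fin p => C i).card := by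
    rw [Fintype.card_piFinset, Finset.prod_range]
  rw [e]
  apply Finset.card_le_card
  intro b hb
  obtain ⟨x, hx, rfl⟩ := Finset.mem_image.1 hb
  rw [Fintype.mem_piFinset]
  intro i
  exact (hcw x hx).1 i (by have := i.2; omega)

/-- the first codes are small -/
lemma low_codes {Λ : AddSubgroup (EuclideanSpace ℝ (Fin n))} (hn0 : 0 < n)
    (hΛ : (Λ : Set (EuclideanSpace ℝ (Fin n))) = constructionC a C) {r : ℝ}
    (hP : IsPacking (Λ : Set (EuclideanSpace ℝ (Fin n))) r) {l p : ℕ} (hp : p ≤ a)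
    (hlp : ∀ i < p, (8 : ℝ) ^ l * 4 ^ i < (2 * r) ^ 2) :
    ((∏ i ∈ Finset.range p, (C i).card : ℕ) : ℝ) ≤ (2 : ℝ) ^ ((10 / 3 : ℝ) * (n / 2 ^ l)) := by
  have hn' : (0 : ℝ) < n := by exact_mod_cast hn0
  have hCpos : ∀ i ∈ Finset.range p, (0 : ℝ) < ((C i).card : ℝ) := by
    intro i hi
    have h1 := Finset.mem_range.1 hi
    have : 0 < (C i).card := Finset.card_pos.2 ⟨∅, empty_mem hΛ (by omega)⟩
    exact_mod_cast this
  have hpp : (0 : ℝ) < ((∏ i ∈ Finset.range p, (C i).card : ℕ) : ℝ) := by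
    push_cast
    exact Finset.prod_pos hCpos
  rw [← Real.logb_le_logb (b := 2) (by norm_num) hpp (by positivity), Real.logb_rpow (by norm_num)
    (by norm_num)]
  have e1 : Real.logb 2 ((∏ i ∈ Finset.range p, (C i).card : ℕ) : ℝ) =
      ∑ i ∈ Finset.range p, Real.logb 2 (C i).card := by
    push_cast
    exact Real.logb_prod _ _ (fun i hi => (hCpos i hi).ne')
  rw [e1]
  rcases Nat.eq_zero_or_pos p with rfl | hp0
  · simp; positivity
  obtain ⟨p, rfl⟩ : ∃ q, p = q + 1 := ⟨p - 1, by omega⟩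
  have hterm : ∀ i ∈ Finset.range (p + 1), Real.logb 2 (C i).card ≤
      (n / 2 ^ l : ℝ) * (1 / 2 : ℝ) ^ (2 * (p - i) / 3) := by
    intro i hi
    have hi' := Finset.mem_range.1 hi
    have hia : i < a := by omega
    have h1 := card_toSub (C i) (closed_codes hΛ hia) (empty_mem hΛ hia)
    have h2 : ((C i).card : ℝ) =
        2 ^ Module.finrank (ZMod 2) (toSub (C i) (closed_codes hΛ hia) (empty_mem hΛ hia)) := by
      exact_mod_cast h1
    rw [h2, Real.logb_pow, Real.logb_self_eq_one (by norm_num), mul_one]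
    have h3 := dim_le hn0 hΛ hP hia (j := l + 2 * (p - i) / 3) (Or.inr (by
      have h4 := (hlp p (by omega)).le
      refine le_trans ?_ h4
      rw [pow_add, mul_assoc]
      apply mul_le_mul_of_nonneg_left _ (by positivity)
      have e1 : (8 : ℝ) ^ (2 * (p - i) / 3) = 2 ^ (3 * (2 * (p - i) / 3)) := by
        rw [pow_mul]; norm_num
      have e2 : (4 : ℝ) ^ i = 2 ^ (2 * i) := by rw [pow_mul]; norm_num
      have e3 : (4 : ℝ) ^ p = 2 ^ (2 * p) := by rw [pow_mul]; norm_num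
      rw [e1, e2, e3, ← pow_add]
      apply pow_le_pow_right₀ (by norm_num)
      omega))
    have h4 : (2 : ℝ) ^ (l + 2 * (p - i) / 3) *
        Module.finrank (ZMod 2) (toSub (C i) (closed_codes hΛ hia) (empty_mem hΛ hia)) ≤ n := by
      exact_mod_cast h3
    rw [pow_add] at h4
    rw [one_div, inv_pow, div_mul_eq_mul_div, ← div_eq_mul_inv, div_div,
      le_div_iff₀ (by positivity)]
    linarith
  refine (Finset.sum_le_sum hterm).trans ?_
  rw [← Finset.mul_sum]
  have hrefl : ∑ i ∈ Finset.range (p + 1), (1 / 2 : ℝ) ^ (2 * (p - i) / 3) ≤ 10 / 3 := by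
    have h2 := Finset.sum_range_reflect (fun m => (1 / 2 : ℝ) ^ (2 * m / 3)) (p + 1)
    have h3 : ∀ i ∈ Finset.range (p + 1), (1 / 2 : ℝ) ^ (2 * (p - i) / 3) =
        (1 / 2 : ℝ) ^ (2 * (p + 1 - 1 - i) / 3) := by
      intro i _
      rw [Nat.add_sub_cancel]
    rw [Finset.sum_congr rfl h3, h2]
    exact sum_v _
  rw [mul_comm (10 / 3 : ℝ)]
  exact mul_le_mul_of_nonneg_left hrefl (by positivity)

/-- a bound with a parameter -/
theorem kiss_param {Λ : AddSubgroup (EuclideanSpace ℝ (Fin n))} (hn0 : 0 < n)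
    (hΛ : (Λ : Set (EuclideanSpace ℝ (Fin n))) = constructionC a C) {r : ℝ}
    (hP : IsPacking (Λ : Set (EuclideanSpace ℝ (Fin n))) r) (F : Finset (EuclideanSpace ℝ (Fin n)))
    (hF : ∀ x ∈ F, x ∈ Λ ∧ ‖x‖ = 2 * r) (l : ℕ) :
    (F.card : ℝ) ≤ (2 * n + 1) ^ (4 * 8 ^ l) * (2 : ℝ) ^ ((10 / 3 : ℝ) * (n / 2 ^ l)) := by
  classical
  have hMa := top_ge hn0 hΛ hP
  have hex : ∃ p : ℕ, (2 * r) ^ 2 ≤ 8 ^ l * 4 ^ p := by
    refine ⟨a, hMa.trans ?_⟩
    have h1 : (1 : ℝ) ≤ 8 ^ l := one_le_pow₀ (by norm_num)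
    have h2 : (0 : ℝ) < 4 ^ a := by positivity
    nlinarith
  set p := Nat.find hex with hp
  have hp1 : (2 * r) ^ 2 ≤ 8 ^ l * 4 ^ p := Nat.find_spec hex
  have hp2 : ∀ i < p, (8 : ℝ) ^ l * 4 ^ i < (2 * r) ^ 2 := fun i hi =>
    not_le.1 (Nat.find_min hex hi)
  have hpa : p ≤ a := by
    by_contra hcon
    push Not at hcon
    have h3 := hp2 a hcon
    have h1 : (1 : ℝ) ≤ 8 ^ l := one_le_pow₀ (by norm_num)
    have h2 : (0 : ℝ) < 4 ^ a := by positivity
    nlinarith
  have h1 := kiss_codes F (fun x hx => by rw [← hΛ]; exact (hF x hx).1) (M := (2 * r) ^ 2)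
    (fun x hx => by rw [(hF x hx).2]) hpa (K := 4 * 8 ^ l) (by
      push_cast
      nlinarith)
  have h2 := low_codes hn0 hΛ hP hpa hp2
  have h3 : (F.card : ℝ) ≤ ((2 * n + 1) ^ (4 * 8 ^ l) * ∏ i ∈ Finset.range p, (C i).card : ℕ) := by
    exact_mod_cast h1
  refine h3.trans ?_
  rw [Nat.cast_mul]
  push_cast at h2 ⊢
  exact mul_le_mul_of_nonneg_left h2 (by positivity)

/-- **Kissing numbers of lattices from Construction C.** -/
theorem kiss {Λ : AddSubgroup (EuclideanSpace ℝ (Fin n))} (hn0 : 0 < n)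
    (hΛ : (Λ : Set (EuclideanSpace ℝ (Fin n))) = constructionC a C) {r : ℝ}
    (hP : IsPacking (Λ : Set (EuclideanSpace ℝ (Fin n))) r) (F : Finset (EuclideanSpace ℝ (Fin n)))
    (hF : ∀ x ∈ F, x ∈ Λ ∧ ‖x‖ = 2 * r) :
    (F.card : ℝ) ≤ (10 * n : ℝ) ^ (4 * (n : ℝ) ^ (3 / 4 : ℝ)) := by
  have hn' : (0 : ℝ) < n := by exact_mod_cast hn0
  have hn1 : (1 : ℝ) ≤ n := by exact_mod_cast hn0
  obtain ⟨l, hl1, hl2⟩ : ∃ l : ℕ, (16 : ℝ) ^ l ≤ n ∧ (n : ℝ) < 16 ^ (l + 1) :=
    exists_nat_pow_near hn1 (by norm_num)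
  refine (kiss_param hn0 hΛ hP F hF l).trans ?_
  set t := (n : ℝ) ^ (3 / 4 : ℝ) with ht
  have ht0 : 0 < t := Real.rpow_pos_of_pos hn' _
  set s := (n : ℝ) ^ (1 / 4 : ℝ) with hs
  have hs0 : 0 < s := Real.rpow_pos_of_pos hn' _
  have hst : s * t = n := by
    rw [hs, ht, ← Real.rpow_add hn']; norm_num
  have hs3 : s ^ 3 = t := by
    rw [hs, ht, ← Real.rpow_natCast, ← Real.rpow_mul hn'.le]; norm_num
  have hs4 : s ^ 4 = n := by
    rw [hs, ← Real.rpow_natCast, ← Real.rpow_mul hn'.le]; norm_num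
  have h2l : (2 : ℝ) ^ l ≤ s := by
    have : ((2 : ℝ) ^ l) ^ 4 ≤ s ^ 4 := by
      rw [hs4, ← pow_mul, mul_comm, pow_mul]; norm_num; exact hl1
    exact le_of_pow_le_pow_left₀ (by norm_num) hs0.le this
  have h2l' : s ≤ 2 ^ l * 2 := by
    have : s ^ 4 ≤ ((2 : ℝ) ^ l * 2) ^ 4 := by
      rw [hs4, ← pow_succ, ← pow_mul, mul_comm, pow_mul]; norm_num; exact hl2.le
    exact le_of_pow_le_pow_left₀ (by norm_num) (by positivity) this
  have h8 : (8 : ℝ) ^ l ≤ t := by
    rw [← hs3]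
    calc (8 : ℝ) ^ l = (2 ^ l) ^ 3 := by rw [← pow_mul, mul_comm, pow_mul]; norm_num
      _ ≤ s ^ 3 := pow_le_pow_left₀ (by positivity) h2l 3
  have hnl : (n : ℝ) / 2 ^ l ≤ 2 * t := by
    rw [div_le_iff₀ (by positivity), ← hst]
    nlinarith
  have h1 : ((2 * n + 1 : ℝ)) ^ (4 * 8 ^ l) ≤ (2 * n + 1 : ℝ) ^ (4 * t) := by
    rw [← Real.rpow_natCast]
    apply Real.rpow_le_rpow_of_exponent_le (by linarith)
    push_cast
    linarith
  have h2 : (2 : ℝ) ^ ((10 / 3 : ℝ) * (n / 2 ^ l)) ≤ ((2 : ℝ) ^ (5 / 3 : ℝ)) ^ (4 * t) := by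
    rw [← Real.rpow_mul (by norm_num)]
    apply Real.rpow_le_rpow_of_exponent_le (by norm_num)
    linarith
  have h3 : (2 : ℝ) ^ (5 / 3 : ℝ) ≤ 3.2 := by
    have h3 : ((2 : ℝ) ^ ((5 : ℝ) / 3)) ^ 3 = 32 := by
      rw [← Real.rpow_natCast, ← Real.rpow_mul (by norm_num)]
      norm_num
    by_contra hcon
    push Not at hcon
    have := pow_lt_pow_left₀ hcon (by norm_num) (n := 3) (by norm_num)
    rw [h3] at this
    norm_num at this
  calc ((2 * n + 1 : ℝ)) ^ (4 * 8 ^ l) * (2 : ℝ) ^ ((10 / 3 : ℝ) * (n / 2 ^ l))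
      ≤ (2 * n + 1 : ℝ) ^ (4 * t) * ((2 : ℝ) ^ (5 / 3 : ℝ)) ^ (4 * t) :=
        mul_le_mul h1 h2 (by positivity) (by positivity)
    _ = ((2 * n + 1 : ℝ) * (2 : ℝ) ^ (5 / 3 : ℝ)) ^ (4 * t) := by
        rw [Real.mul_rpow (by positivity) (by positivity)]
    _ ≤ (10 * n : ℝ) ^ (4 * t) := by
        apply Real.rpow_le_rpow (by positivity) _ (by positivity)
        nlinarith

end Pool.Agent.helper275_conc
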