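import Mathlib

/-! A counting lemma for families of sets of one size with few intersection patterns, and the size
of a binary code all of whose short intersections are large. -/

namespace Pool.Agent.helper275_conc
open Finset

variable {n : ℕ}

/-- The sets of `W` which contain `e` -/
def above (W : Finset (Finset (Fin n))) (e : Finset (Fin n)) : Finset (Finset (Fin n)) :=
  W.filter (fun c => e ⊆ c)

lemma mem_above {W : Finset (Finset (Fin n))} {e c : Finset (Fin n)} :
    c ∈ above W e ↔ c ∈ W ∧ e ⊆ c := by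
  rw [above, Finset.mem_filter]

/-- a subfamily in which any two sets meet exactly in `e` -/
def IsFlower (e : Finset (Fin n)) (G : Finset (Finset (Fin n))) : Prop :=
  ∀ c ∈ G, ∀ c' ∈ G, c ≠ c' → c ∩ c' = e

lemma flower_card {e : Finset (Fin n)} {G : Finset (Finset (Fin n))} {N : ℕ}
    (hG : IsFlower e G) (hN : ∀ c ∈ G, c.card = N) (he : ∀ c ∈ G, e ⊆ c) :
    G.card * (N - e.card) ≤ n := by
  classical
  have h1 : (G.biUnion fun c => c \ e).card = ∑ c ∈ G, (c \ e).card := by
    apply Finset.card_biUnion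
    intro c hc c' hc' hcc'
    rw [Function.onFun, Finset.disjoint_left]
    intro k hk hk'
    rw [Finset.mem_sdiff] at hk hk'
    have := hG c hc c' hc' hcc'
    apply hk.2
    rw [← this, Finset.mem_inter]
    exact ⟨hk.1, hk'.1⟩
  have h2 : ∑ c ∈ G, (c \ e).card = G.card * (N - e.card) := by
    rw [Finset.sum_congr rfl (fun c hc => show (c \ e).card = N - e.card by
      rw [Finset.card_sdiff_of_subset (he c hc), hN c hc]), Finset.sum_const, smul_eq_mul]
  rw [← h2, ← h1]
  exact (Finset.card_le_univ _).trans (by simp)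

lemma exists_flower (W : Finset (Finset (Fin n))) (e : Finset (Fin n)) :
    ∃ G ⊆ above W e, IsFlower e G ∧ ∀ c ∈ above W e, c ∉ G → ∃ g ∈ G, g ∩ c ≠ e := by
  classical
  set S := (above W e).powerset.filter (fun G => IsFlower e G) with hS
  have hne : S.Nonempty := by
    refine ⟨∅, ?_⟩
    rw [hS, Finset.mem_filter]
    exact ⟨Finset.empty_mem_powerset _, fun c hc => absurd hc (Finset.notMem_empty _)⟩
  obtain ⟨G, hG, hmax⟩ := Finset.exists_max_image S Finset.card hne
  rw [hS, Finset.mem_filter, Finset.mem_powerset] at hG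
  refine ⟨G, hG.1, hG.2, ?_⟩
  intro c hc hcG
  by_contra hcon
  push Not at hcon
  have h1 : insert c G ∈ S := by
    rw [hS, Finset.mem_filter, Finset.mem_powerset]
    refine ⟨Finset.insert_subset hc hG.1, ?_⟩
    intro x hx y hy hxy
    rw [Finset.mem_insert] at hx hy
    rcases hx with rfl | hx <;> rcases hy with rfl | hy
    · exact absurd rfl hxy
    · rw [Finset.inter_comm]; exact hcon y hy
    · exact hcon x hx
    · exact hG.2 x hx y hy hxy
  have h2 := hmax _ h1
  rw [Finset.card_insert_of_notMem hcG] at h2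
  omega

/-- the hypotheses on the family -/
structure Fam (W : Finset (Finset (Fin n))) (N : ℕ) (E : Finset (Fin n) → Prop) (B : ℕ) : Prop where
  card : ∀ c ∈ W, c.card = N
  pos : 0 < N
  half : ∀ c ∈ W, ∀ c' ∈ W, c ≠ c' → 2 * (c ∩ c').card ≤ N
  inter : ∀ c ∈ W, ∀ c' ∈ W, c ≠ c' → E (c ∩ c')
  gap : ∀ e e', E e → E e' → e ⊂ e' → 4 * e.card + N ≤ 4 * e'.card
  few : ∀ c ∈ W, ∀ S : Finset (Finset (Fin n)), (∀ e ∈ S, e ⊆ c ∧ E e) → S.card ≤ B
  empty : E ∅

variable {W : Finset (Finset (Fin n))} {N : ℕ} {E : Finset (Fin n) → Prop} {B : ℕ}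

lemma step (hF : Fam W N E B) {e : Finset (Fin n)} (he : E e) {m : ℝ} (hm : 1 ≤ m)
    (h : ∀ e', E e' → e ⊂ e' → ((above W e').card : ℝ) ≤ m) :
    ((above W e).card : ℝ) * (N - e.card) ≤ B * m * n := by
  classical
  obtain ⟨G, hGs, hG, hmax⟩ := exists_flower W e
  have hGW : ∀ g ∈ G, g ∈ W ∧ e ⊆ g := fun g hg => mem_above.1 (hGs hg)
  set P : Finset (Fin n) → Finset (Finset (Fin n)) := fun g =>
    g.powerset.filter (fun e' => E e' ∧ e ⊂ e') with hP
  have hPB : ∀ g ∈ G, (P g).card + 1 ≤ B := by
    intro g hg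
    have h1 := hF.few g (hGW g hg).1 (insert e (P g)) (by
      intro x hx
      rw [Finset.mem_insert] at hx
      rcases hx with rfl | hx
      · exact ⟨(hGW g hg).2, he⟩
      · rw [hP, Finset.mem_filter, Finset.mem_powerset] at hx
        exact ⟨hx.1, hx.2.1⟩)
    rw [Finset.card_insert_of_notMem] at h1
    · exact h1
    · intro hx
      rw [hP, Finset.mem_filter] at hx
      exact (ssubset_irrefl e) hx.2.2
  have hcover : above W e ⊆ G.biUnion (fun g => insert g ((P g).biUnion (fun e' => above W e'))) := by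
    intro c hc
    by_cases hcG : c ∈ G
    · rw [Finset.mem_biUnion]
      exact ⟨c, hcG, Finset.mem_insert_self _ _⟩
    · obtain ⟨g, hg, hgc⟩ := hmax c hc hcG
      rw [Finset.mem_biUnion]
      refine ⟨g, hg, Finset.mem_insert_of_mem ?_⟩
      rw [Finset.mem_biUnion]
      refine ⟨g ∩ c, ?_, ?_⟩
      · rw [hP, Finset.mem_filter, Finset.mem_powerset]
        have hne : g ≠ c := fun h => hcG (h ▸ hg)
        refine ⟨Finset.inter_subset_left, hF.inter g (hGW g hg).1 c (mem_above.1 hc).1 hne, ?_⟩
        rw [Finset.ssubset_iff_subset_ne]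
        exact ⟨Finset.subset_inter (hGW g hg).2 (mem_above.1 hc).2, fun h => hgc h.symm⟩
      · exact mem_above.2 ⟨(mem_above.1 hc).1, Finset.inter_subset_right⟩
  have h1 : ((above W e).card : ℝ) ≤ G.card * (B * m) := by
    have h2 := (Finset.card_le_card hcover).trans Finset.card_biUnion_le
    have h3 : (((above W e).card : ℕ) : ℝ) ≤
        ((∑ g ∈ G, (insert g ((P g).biUnion (fun e' => above W e'))).card : ℕ) : ℝ) := by
      exact_mod_cast h2
    refine h3.trans ?_
    push_cast
    rw [← nsmul_eq_mul]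
    apply Finset.sum_le_card_nsmul
    intro g hg
    have h4 : (((insert g ((P g).biUnion (fun e' => above W e'))).card : ℕ) : ℝ) ≤
        1 + ((P g).card : ℝ) * m := by
      have h5 : (insert g ((P g).biUnion (fun e' => above W e'))).card ≤
          ∑ e' ∈ P g, (above W e').card + 1 :=
        (Finset.card_insert_le _ _).trans (Nat.add_le_add_right Finset.card_biUnion_le 1)
      have h6 : (((insert g ((P g).biUnion (fun e' => above W e'))).card : ℕ) : ℝ) ≤
          ((∑ e' ∈ P g, (above W e').card + 1 : ℕ) : ℝ) := by exact_mod_cast h5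
      refine h6.trans ?_
      push_cast
      have h7 : ∑ e' ∈ P g, ((above W e').card : ℝ) ≤ (P g).card • m := by
        apply Finset.sum_le_card_nsmul
        intro e' he'
        rw [hP, Finset.mem_filter] at he'
        exact h e' he'.2.1 he'.2.2
      rw [nsmul_eq_mul] at h7
      linarith
    have h8 : ((P g).card : ℝ) + 1 ≤ B := by exact_mod_cast hPB g hg
    refine h4.trans ?_
    nlinarith
  rcases Finset.eq_empty_or_nonempty (above W e) with h0 | h0
  · rw [h0]
    simp only [Finset.card_empty, Nat.cast_zero, zero_mul]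
    positivity
  obtain ⟨c, hc⟩ := h0
  have h9 : e.card ≤ N := by
    rw [← hF.card c (mem_above.1 hc).1]
    exact Finset.card_le_card (mem_above.1 hc).2
  have h10 := flower_card (N := N) hG (fun c hc => hF.card c (hGW c hc).1) (fun c hc => (hGW c hc).2)
  have h11 : (G.card : ℝ) * (N - e.card) ≤ n := by
    have : ((G.card * (N - e.card) : ℕ) : ℝ) ≤ n := by exact_mod_cast h10
    rw [Nat.cast_mul, Nat.cast_sub h9] at this
    exact this
  have h12 : (0 : ℝ) ≤ N - e.card := by
    have : (e.card : ℝ) ≤ N := by exact_mod_cast h9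
    linarith
  have h13 : (0 : ℝ) ≤ B * m := by positivity
  calc ((above W e).card : ℝ) * (N - e.card) ≤ G.card * (B * m) * (N - e.card) :=
        mul_le_mul_of_nonneg_right h1 h12
    _ = (G.card * (N - e.card)) * (B * m) := by ring
    _ ≤ n * (B * m) := mul_le_mul_of_nonneg_right h11 h13
    _ = B * m * n := by ring

lemma B_pos (hF : Fam W N E B) {c : Finset (Fin n)} (hc : c ∈ W) : (1 : ℝ) ≤ B := by
  have h1 := hF.few c hc {∅} (by
    intro e he
    rw [Finset.mem_singleton] at he
    subst he
    exact ⟨Finset.empty_subset _, hF.empty⟩)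
  rw [Finset.card_singleton] at h1
  exact_mod_cast h1

lemma N_le (hF : Fam W N E B) {c : Finset (Fin n)} (hc : c ∈ W) : (N : ℝ) ≤ n := by
  have h1 := hF.card c hc
  have h2 : c.card ≤ n := (Finset.card_le_univ c).trans (by simp)
  rw [h1] at h2
  exact_mod_cast h2

lemma level3 (hF : Fam W N E B) {e : Finset (Fin n)} (he : N < 2 * e.card) :
    ((above W e).card : ℝ) ≤ 1 := by
  have : (above W e).card ≤ 1 := by
    rw [Finset.card_le_one]
    intro c hc c' hc'
    by_contra hcon
    have h1 := hF.half c (mem_above.1 hc).1 c' (mem_above.1 hc').1 hcon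
    have h2 := Finset.card_le_card (Finset.subset_inter (mem_above.1 hc).2 (mem_above.1 hc').2)
    omega
  exact_mod_cast this

lemma level2 (hF : Fam W N E B) {e : Finset (Fin n)} (hE : E e) (he : N ≤ 2 * e.card) :
    ((above W e).card : ℝ) * N ≤ 2 * B * n := by
  rcases Finset.eq_empty_or_nonempty (above W e) with h0 | ⟨c, hc⟩
  · rw [h0]; simp only [Finset.card_empty, Nat.cast_zero, zero_mul]; positivity
  have hB := B_pos hF (mem_above.1 hc).1
  have hN := N_le hF (mem_above.1 hc).1
  have hNp : (0 : ℝ) < N := by exact_mod_cast hF.pos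
  rcases Nat.lt_or_ge N (2 * e.card) with h1 | h1
  · have h2 := level3 hF h1
    nlinarith
  · have h2 : N = 2 * e.card := by omega
    have h3 := step hF hE (m := 1) le_rfl (by
      intro e' he' hee'
      apply level3 hF
      have := Finset.card_lt_card hee'
      omega)
    have h4 : (e.card : ℝ) = N / 2 := by
      have : (N : ℝ) = 2 * e.card := by exact_mod_cast h2
      linarith
    rw [h4] at h3
    linarith

lemma level1 (hF : Fam W N E B) {e : Finset (Fin n)} (hE : E e) (he : N ≤ 4 * e.card) :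
    ((above W e).card : ℝ) * N ^ 2 ≤ 4 * B ^ 2 * n ^ 2 := by
  rcases Finset.eq_empty_or_nonempty (above W e) with h0 | ⟨c, hc⟩
  · rw [h0]; simp only [Finset.card_empty, Nat.cast_zero, zero_mul]; positivity
  have hB := B_pos hF (mem_above.1 hc).1
  have hN := N_le hF (mem_above.1 hc).1
  have hNp : (0 : ℝ) < N := by exact_mod_cast hF.pos
  rcases Nat.lt_or_ge (2 * e.card) N with h1 | h1
  · have hm : (1 : ℝ) ≤ 2 * B * n / N := by
      rw [le_div_iff₀ hNp]
      nlinarith
    have h3 := step hF hE (m := 2 * B * n / N) hm (by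
      intro e' he' hee'
      have h4 := hF.gap e e' hE he' hee'
      rw [le_div_iff₀ hNp]
      exact level2 hF he' (by omega))
    have h4 : (e.card : ℝ) ≤ N / 2 := by
      have : (2 * e.card : ℝ) ≤ N := by exact_mod_cast h1.le
      linarith
    have h5 : ((above W e).card : ℝ) * (N / 2) ≤ B * (2 * B * n / N) * n := by
      refine le_trans ?_ h3
      apply mul_le_mul_of_nonneg_left _ (by positivity)
      linarith
    have h6 : B * (2 * B * n / N) * n = 2 * B ^ 2 * n ^ 2 / (N : ℝ) := by ring
    rw [h6, le_div_iff₀ hNp] at h5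
    nlinarith
  · have h2 := level2 hF hE h1
    have h3 : ((above W e).card : ℝ) * N ^ 2 ≤ 2 * B * n * N := by nlinarith
    refine h3.trans ?_
    have h4 : (0 : ℝ) ≤ 2 * B * n := by positivity
    have h5 : 2 * (B : ℝ) * n * N ≤ 2 * B * n * n := mul_le_mul_of_nonneg_left hN h4
    refine h5.trans ?_
    have h6 : (B : ℝ) ≤ B ^ 2 := by nlinarith
    have h7 : (0 : ℝ) ≤ (n : ℝ) ^ 2 := by positivity
    nlinarith

/-- the number of sets -/
theorem fam_card (hF : Fam W N E B) : (W.card : ℝ) * N ^ 3 ≤ 4 * B ^ 3 * n ^ 3 := by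
  rcases Finset.eq_empty_or_nonempty W with h0 | ⟨c, hc⟩
  · rw [h0]; simp only [Finset.card_empty, Nat.cast_zero, zero_mul]; positivity
  have hB := B_pos hF hc
  have hN := N_le hF hc
  have hNp : (0 : ℝ) < N := by exact_mod_cast hF.pos
  have hN2 : (0 : ℝ) < (N : ℝ) ^ 2 := by positivity
  have hm : (1 : ℝ) ≤ 4 * B ^ 2 * n ^ 2 / N ^ 2 := by
    rw [le_div_iff₀ hN2, one_mul]
    have h1 : (N : ℝ) ^ 2 ≤ n ^ 2 := pow_le_pow_left₀ hNp.le hN 2
    have h2 : (1 : ℝ) ≤ B ^ 2 := one_le_pow₀ hB
    nlinarith
  have h3 := step hF hF.empty (m := 4 * B ^ 2 * n ^ 2 / N ^ 2) hm (by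
    intro e' he' hee'
    have h4 := hF.gap ∅ e' hF.empty he' hee'
    rw [Finset.card_empty] at h4
    rw [le_div_iff₀ hN2]
    exact level1 hF he' (by omega))
  have h4 : above W ∅ = W := by
    rw [above, Finset.filter_true_of_mem]
    intro x _
    exact Finset.empty_subset _
  rw [h4, Finset.card_empty, Nat.cast_zero, sub_zero] at h3
  have h5 : (B : ℝ) * (4 * B ^ 2 * n ^ 2 / N ^ 2) * n = 4 * B ^ 3 * n ^ 3 / (N : ℝ) ^ 2 := by ring
  rw [h5, le_div_iff₀ hN2] at h3
  calc (W.card : ℝ) * N ^ 3 = W.card * N * N ^ 2 := by ring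
    _ ≤ _ := h3

/-- the common elements of the members of a family -/
def com (T : Finset (Finset (Fin n))) : Finset (Fin n) := univ.filter (fun k => ∀ v ∈ T, k ∈ v)

lemma mem_com {T : Finset (Finset (Fin n))} {k : Fin n} : k ∈ com T ↔ ∀ v ∈ T, k ∈ v := by
  simp [com]

/-- Halving: a code supported in a set of size `N`, all of whose nonempty intersections of at most 16
words have more than `N/2048` elements: each nonempty word contains such an intersection which is not
cut by any word. -/
lemma halving {D : Finset (Finset (Fin n))} (hD : ∀ x ∈ D, ∀ y ∈ D, symmDiff x y ∈ D) {c : Finset (Fin n)}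
    (hc : ∀ w ∈ D, w ⊆ c)
    (hI : ∀ T ⊆ D, T.Nonempty → T.card ≤ 16 → (com T).Nonempty → c.card ≤ 1024 * (com T).card)
    {w : Finset (Fin n)} (hw : w ∈ D) (hw0 : w.Nonempty) :
    ∃ T ⊆ D, w ∈ T ∧ (com T).Nonempty ∧ c.card ≤ 1024 * (com T).card ∧
      ∀ v ∈ D, com T ⊆ v ∨ Disjoint (com T) v := by
  classical
  have key : ∀ s, s ≤ 11 → (∃ T ⊆ D, w ∈ T ∧ (com T).Nonempty ∧ c.card ≤ 1024 * (com T).card ∧
      ∀ v ∈ D, com T ⊆ v ∨ Disjoint (com T) v) ∨
      (∃ T ⊆ D, w ∈ T ∧ (com T).Nonempty ∧ T.card ≤ s + 1 ∧ 2 ^ s * (com T).card ≤ c.card) := by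
    intro s
    induction s with
    | zero =>
      intro _
      right
      have e : com {w} = w := by ext k; simp [mem_com]
      refine ⟨{w}, by simpa using hw, Finset.mem_singleton_self _, by rw [e]; exact hw0, by simp, ?_⟩
      rw [e]
      simpa using Finset.card_le_card (hc w hw)
    | succ s ih =>
      intro hs
      rcases ih (by omega) with h | ⟨T, hT, hwT, hne, hTc, hcard⟩
      · exact Or.inl h
      by_cases hat : ∀ v ∈ D, com T ⊆ v ∨ Disjoint (com T) v
      · exact Or.inl ⟨T, hT, hwT, hne, hI T hT ⟨w, hwT⟩ (by omega) hne, hat⟩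
      · right
        push Not at hat
        obtain ⟨v, hv, hv1, hv2⟩ := hat
        rw [Finset.not_subset] at hv1
        obtain ⟨k1, hk1, hk1v⟩ := hv1
        rw [Finset.not_disjoint_iff] at hv2
        obtain ⟨k2, hk2, hk2v⟩ := hv2
        have e1 : com (insert v T) = com T ∩ v := by
          ext k
          simp only [mem_com, Finset.mem_insert, Finset.mem_inter, forall_eq_or_imp]
          tauto
        have e2 : com (insert (symmDiff v w) T) = com T \ v := by
          ext k
          rw [Finset.mem_sdiff, mem_com, mem_com]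
          simp only [Finset.mem_insert, forall_eq_or_imp, Finset.mem_symmDiff]
          constructor
          · rintro ⟨h1, h2⟩
            refine ⟨h2, ?_⟩
            rcases h1 with ⟨_, h3⟩ | ⟨_, h3⟩
            · exact absurd (h2 w hwT) h3
            · exact h3
          · rintro ⟨h1, h2⟩
            exact ⟨Or.inr ⟨h1 w hwT, h2⟩, h1⟩
        have e3 : (com T ∩ v).card + (com T \ v).card = (com T).card :=
          Finset.card_inter_add_card_sdiff _ _
        rcases Nat.lt_or_ge (com T ∩ v).card (com T \ v).card with h1 | h1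
        · refine ⟨insert v T, Finset.insert_subset hv hT, Finset.mem_insert_of_mem hwT, ?_, ?_, ?_⟩
          · rw [e1]; exact ⟨k2, Finset.mem_inter.2 ⟨hk2, hk2v⟩⟩
          · exact (Finset.card_insert_le _ _).trans (by omega)
          · rw [e1, pow_succ]
            calc 2 ^ s * 2 * (com T ∩ v).card = 2 ^ s * (2 * (com T ∩ v).card) := by ring
              _ ≤ 2 ^ s * (com T).card := Nat.mul_le_mul_left _ (by omega)
              _ ≤ c.card := hcard
        · refine ⟨insert (symmDiff v w) T, Finset.insert_subset (hD v hv w hw) hT,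
            Finset.mem_insert_of_mem hwT, ?_, ?_, ?_⟩
          · rw [e2]; exact ⟨k1, Finset.mem_sdiff.2 ⟨hk1, hk1v⟩⟩
          · exact (Finset.card_insert_le _ _).trans (by omega)
          · rw [e2, pow_succ]
            calc 2 ^ s * 2 * (com T \ v).card = 2 ^ s * (2 * (com T \ v).card) := by ring
              _ ≤ 2 ^ s * (com T).card := Nat.mul_le_mul_left _ (by omega)
              _ ≤ c.card := hcard
  rcases key 11 le_rfl with h | ⟨T, hT, hwT, hne, hTc, hcard⟩
  · exact h
  · exfalso
    have h1 := hI T hT ⟨w, hwT⟩ (by omega) hne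
    have h2 := Finset.card_pos.2 hne
    omega

/-- such a code has at most `2^1024` words -/
theorem few_words {D : Finset (Finset (Fin n))} (hD : ∀ x ∈ D, ∀ y ∈ D, symmDiff x y ∈ D)
    {c : Finset (Fin n)} (hc0 : c.Nonempty) (hc : ∀ w ∈ D, w ⊆ c)
    (hI : ∀ T ⊆ D, T.Nonempty → T.card ≤ 16 → (com T).Nonempty → c.card ≤ 1024 * (com T).card) :
    D.card ≤ 2 ^ 1024 := by
  classical
  set cl : Fin n → Finset (Fin n) := fun k => c.filter (fun k' => ∀ v ∈ D, (k' ∈ v ↔ k ∈ v)) with hcl
  set K : Finset (Finset (Fin n)) := (c.image cl).filter (fun A => c.card ≤ 1024 * A.card) with hK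
  have hKc : K.card ≤ 1024 := by
    have h1 : (K.biUnion id).card = ∑ A ∈ K, A.card := by
      apply Finset.card_biUnion
      intro A hA A' hA' hAA'
      rw [Function.onFun, Finset.disjoint_left]
      intro k hk hk'
      apply hAA'
      rw [Finset.mem_coe, hK, Finset.mem_filter, Finset.mem_image] at hA hA'
      obtain ⟨⟨k1, hk1, rfl⟩, _⟩ := hA
      obtain ⟨⟨k2, hk2, rfl⟩, _⟩ := hA'
      simp only [id, hcl, Finset.mem_filter] at hk hk'
      ext x
      simp only [hcl, Finset.mem_filter]
      constructor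
      · rintro ⟨hx, hx2⟩
        exact ⟨hx, fun v hv => by rw [hx2 v hv, ← hk.2 v hv, hk'.2 v hv]⟩
      · rintro ⟨hx, hx2⟩
        exact ⟨hx, fun v hv => by rw [hx2 v hv, ← hk'.2 v hv, hk.2 v hv]⟩
    have h2 : (K.biUnion id).card ≤ c.card := by
      apply Finset.card_le_card
      intro k hk
      rw [Finset.mem_biUnion] at hk
      obtain ⟨A, hA, hk⟩ := hk
      rw [hK, Finset.mem_filter, Finset.mem_image] at hA
      obtain ⟨⟨k1, hk1, rfl⟩, _⟩ := hA
      simp only [id, hcl, Finset.mem_filter] at hk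
      exact hk.1
    have h3 : K.card * c.card ≤ 1024 * c.card := by
      calc K.card * c.card = ∑ _A ∈ K, c.card := by rw [Finset.sum_const, smul_eq_mul]
        _ ≤ ∑ A ∈ K, 1024 * A.card := Finset.sum_le_sum fun A hA => by
            rw [hK, Finset.mem_filter] at hA; exact hA.2
        _ = 1024 * ∑ A ∈ K, A.card := by rw [Finset.mul_sum]
        _ ≤ 1024 * c.card := by rw [← h1]; exact Nat.mul_le_mul_left _ h2
    exact Nat.le_of_mul_le_mul_right h3 (Finset.card_pos.2 hc0)
  -- every nonempty word contains a class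
  have hcont : ∀ w ∈ D, w.Nonempty → ∃ A ∈ K, A ⊆ w := by
    intro w hw hw0
    obtain ⟨T, hT, hwT, ⟨k0, hk0⟩, hTc, hat⟩ := halving hD hc hI hw hw0
    have hcomw : com T ⊆ w := fun k hk => mem_com.1 hk w hwT
    have e : cl k0 = com T := by
      ext k
      simp only [hcl, Finset.mem_filter]
      constructor
      · rintro ⟨_, h2⟩
        rw [mem_com]
        intro v hv
        rw [h2 v (hT hv)]
        exact mem_com.1 hk0 v hv
      · intro hk
        refine ⟨hc w hw (hcomw hk), fun v hv => ?_⟩
        rcases hat v hv with h | h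
        · exact ⟨fun _ => h hk0, fun _ => h hk⟩
        · exact ⟨fun h' => absurd h' (Finset.disjoint_left.1 h hk),
            fun h' => absurd h' (Finset.disjoint_left.1 h hk0)⟩
    refine ⟨cl k0, ?_, ?_⟩
    · rw [hK, Finset.mem_filter, Finset.mem_image]
      refine ⟨⟨k0, hc w hw (hcomw hk0), rfl⟩, ?_⟩
      rw [e]; exact hTc
    · rw [e]; exact hcomw
  have hinj : Set.InjOn (fun w => K.filter (fun A => A ⊆ w)) (D : Set (Finset (Fin n))) := by
    intro x hx y hy hxy
    by_contra hne
    have h1 : (symmDiff x y).Nonempty := by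
      rw [Finset.nonempty_iff_ne_empty]
      intro h
      apply hne
      rw [← Finset.bot_eq_empty, symmDiff_eq_bot] at h
      exact h
    obtain ⟨A, hA, hAs⟩ := hcont _ (hD x hx y hy) h1
    have hA' := hA
    rw [hK, Finset.mem_filter, Finset.mem_image] at hA'
    obtain ⟨⟨k0, hk0c, rfl⟩, hcard⟩ := hA'
    have hk0 : k0 ∈ cl k0 := by
      rw [hcl, Finset.mem_filter]
      exact ⟨hk0c, fun v _ => Iff.rfl⟩
    have hat : ∀ v ∈ D, (k0 ∈ v ↔ cl k0 ⊆ v) := by
      intro v hv
      constructor
      · intro h k hk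
        simp only [hcl, Finset.mem_filter] at hk
        exact (hk.2 v hv).2 h
      · intro h
        exact h hk0
    have h2 : cl k0 ∈ K.filter (fun A => A ⊆ x) ↔ cl k0 ∈ K.filter (fun A => A ⊆ y) := by
      have := hxy
      simp only at this
      rw [this]
    have h4 : ∀ v : Finset (Fin n), cl k0 ∈ K.filter (fun A => A ⊆ v) ↔ cl k0 ⊆ v := fun v =>
      ⟨fun h => (Finset.mem_filter.1 h).2, fun h => Finset.mem_filter.2 ⟨hA, h⟩⟩
    rw [h4, h4, ← hat x hx, ← hat y hy] at h2
    have h3 := hAs hk0
    rw [Finset.mem_symmDiff] at h3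
    tauto
  have h1 : D.card ≤ (K.powerset).card := by
    apply Finset.card_le_card_of_injOn (fun w => K.filter (fun A => A ⊆ w))
    · intro w _
      rw [Finset.mem_coe, Finset.mem_powerset]
      exact Finset.filter_subset _ _
    · exact hinj
  rw [Finset.card_powerset] at h1
  exact h1.trans (Nat.pow_le_pow_right (Nat.succ_pos 1) hKc)

end Pool.Agent.helper275_conc
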