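import Pool.Agent.helper275_conc.Kiss
import Pool.Agent.helper275_conc.Sunflower

/-! Kissing numbers of lattices from Construction C: the bound `O(n^3)`. -/

open MeasureTheory Metric Filter
open scoped Topology

namespace Pool.Agent.helper275_conc
open Pool.Agent.H818R2 Pool.Agent.helper275_codes Finset

variable {n a : ℕ} {C : ℕ → Finset (Finset (Fin n))} {Λ : AddSubgroup (EuclideanSpace ℝ (Fin n))}

lemma odd_digit : ∀ (j a : ℕ) (b : ℕ → ℤ) (z u : ℤ), (∀ l, b l = 0 ∨ b l = 1) → j < a →
    ∑ l ∈ range a, 2 ^ l * b l + 2 ^ a * z = 2 ^ j * u → (b j = 1 ↔ Odd u) := by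
  intro j
  induction j with
  | zero =>
    intro a b z u hb ha h
    obtain ⟨a, rfl⟩ : ∃ m, a = m + 1 := ⟨a - 1, by omega⟩
    rw [Finset.sum_range_succ'] at h
    have e1 : ∑ l ∈ range a, 2 ^ (l + 1) * b (l + 1) = 2 * ∑ l ∈ range a, 2 ^ l * b (l + 1) := by
      rw [Finset.mul_sum]
      apply Finset.sum_congr rfl
      intro l _
      ring
    rw [e1, pow_succ] at h
    simp only [pow_zero, one_mul] at h
    have h1 : u = b 0 + 2 * (∑ l ∈ range a, 2 ^ l * b (l + 1) + 2 ^ a * z) := by linarith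
    rcases hb 0 with h2 | h2
    · rw [h2] at h1 ⊢
      constructor
      · intro h; omega
      · rintro ⟨v, hv⟩; omega
    · rw [h2] at h1 ⊢
      constructor
      · intro _
        exact ⟨∑ l ∈ range a, 2 ^ l * b (l + 1) + 2 ^ a * z, by rw [h1]; ring⟩
      · intro _; rfl
  | succ j ih =>
    intro a b z u hb ha h
    obtain ⟨a, rfl⟩ : ∃ m, a = m + 1 := ⟨a - 1, by omega⟩
    rw [Finset.sum_range_succ'] at h
    have e1 : ∑ l ∈ range a, 2 ^ (l + 1) * b (l + 1) = 2 * ∑ l ∈ range a, 2 ^ l * b (l + 1) := by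
      rw [Finset.mul_sum]
      apply Finset.sum_congr rfl
      intro l _
      ring
    rw [e1, pow_succ, pow_succ] at h
    simp only [pow_zero, one_mul] at h
    have h1 : b 0 = 2 * (2 ^ j * u - (∑ l ∈ range a, 2 ^ l * b (l + 1) + 2 ^ a * z)) := by linarith
    have h2 : b 0 = 0 := by rcases hb 0 with h2 | h2 <;> omega
    refine ih a (fun l => b (l + 1)) z u (fun l => hb _) (by omega) ?_
    rw [h2] at h
    linarith

lemma odd_mem (hΛ : (Λ : Set (EuclideanSpace ℝ (Fin n))) = constructionC a C)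
    {x : EuclideanSpace ℝ (Fin n)} (hx : x ∈ Λ) {j : ℕ} (hj : j < a) {u : Fin n → ℤ}
    (hu : ∀ k, x k = 2 ^ j * u k) : univ.filter (fun k => Odd (u k)) ∈ C j := by
  have hx' : x ∈ constructionC a C := by rw [← hΛ]; exact hx
  obtain ⟨c, z, hc, hxk⟩ := hx'
  have : univ.filter (fun k => Odd (u k)) = c j := by
    ext k
    rw [Finset.mem_filter]
    have h1 := odd_digit j a (fun i => if k ∈ c i then 1 else 0) (z k) (u k)
      (fun l => by by_cases h : k ∈ c l <;> simp [h]) hj (by
        have h2 := (hxk k).symm.trans (hu k)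
        have h3 : ((∑ l ∈ range a, 2 ^ l * (if k ∈ c l then (1 : ℤ) else 0) + 2 ^ a * z k : ℤ) : ℝ) =
            ((2 ^ j * u k : ℤ) : ℝ) := by
          push_cast
          exact h2
        exact_mod_cast h3)
    rw [← h1]
    by_cases h : k ∈ c j <;> simp [h]
  rw [this]
  exact hc j hj

lemma norm_sq_int {x : EuclideanSpace ℝ (Fin n)} {i : ℕ} {y : Fin n → ℤ}
    (h : ∀ k, x k = 2 ^ i * y k) : ‖x‖ ^ 2 = 4 ^ i * ((∑ k, y k ^ 2 : ℤ) : ℝ) := by
  rw [EuclideanSpace.norm_sq_eq]
  push_cast
  rw [Finset.mul_sum]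
  apply Finset.sum_congr rfl
  intro k _
  rw [h k, Real.norm_eq_abs, sq_abs, mul_pow, ← pow_mul, mul_comm i 2, pow_mul]
  norm_num

/-- signed words -/
def Signed (i : ℕ) (c : Finset (Fin n)) (x : EuclideanSpace ℝ (Fin n)) : Prop :=
  ∃ y : Fin n → ℤ, (∀ k, x k = 2 ^ i * y k) ∧ (∀ k ∈ c, y k = 1 ∨ y k = -1) ∧ ∀ k, k ∉ c → y k = 0

/-- the shape of the vectors of minimal norm -/
lemma shape (hn : 0 < n) (hΛ : (Λ : Set (EuclideanSpace ℝ (Fin n))) = constructionC a C) {r : ℝ}
    (hP : IsPacking (Λ : Set (EuclideanSpace ℝ (Fin n))) r) {x : EuclideanSpace ℝ (Fin n)}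
    (hx : x ∈ Λ) (hxr : ‖x‖ ^ 2 = (2 * r) ^ 2) :
    (∃ z : Fin n → ℤ, (∀ k, x k = 2 ^ a * z k) ∧ ∑ k, z k ^ 2 ≤ 1) ∨
    ∃ i < a, ∃ c ∈ C i, c.Nonempty ∧ (4 : ℝ) ^ i * c.card = (2 * r) ^ 2 ∧ Signed i c x := by
  have hx' : x ∈ constructionC a C := by rw [← hΛ]; exact hx
  obtain ⟨c, z, hc, hxk⟩ := hx'
  by_cases hall : ∀ i < a, c i = ∅
  · left
    have h1 : ∀ k, x k = 2 ^ a * z k := by
      intro k
      rw [hxk k]
      have : ∑ i ∈ range a, (2 : ℝ) ^ i * (if k ∈ c i then (1 : ℝ) else 0) = 0 := by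
        apply Finset.sum_eq_zero
        intro i hi
        rw [hall i (Finset.mem_range.1 hi)]
        simp
      rw [this, zero_add]
    refine ⟨z, h1, ?_⟩
    have h2 := norm_sq_int h1
    have h3 := top_ge hn hΛ hP
    rw [hxr] at h2
    have h4 : (0 : ℝ) < 4 ^ a := by positivity
    have h5 : ((∑ k, z k ^ 2 : ℤ) : ℝ) ≤ 1 := by
      by_contra hcon
      push Not at hcon
      nlinarith
    exact_mod_cast h5
  · right
    push Not at hall
    have hex : ∃ i, i < a ∧ c i ≠ ∅ := by
      obtain ⟨i, hi, h⟩ := hall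
      exact ⟨i, hi, Finset.nonempty_iff_ne_empty.1 h⟩
    obtain ⟨i, ⟨hi, hne⟩, hmin⟩ : ∃ i, (i < a ∧ c i ≠ ∅) ∧ ∀ j < i, ¬ (j < a ∧ c j ≠ ∅) :=
      ⟨Nat.find hex, Nat.find_spec hex, fun j hj => Nat.find_min hex hj⟩
    have hempty : ∀ j < i, c j = ∅ := by
      intro j hj
      by_contra h
      exact hmin j hj ⟨by omega, h⟩
    have hcne : (c i).Nonempty := Finset.nonempty_iff_ne_empty.2 hne
    obtain ⟨m, rfl⟩ : ∃ m, a = i + (m + 1) := ⟨a - i - 1, by omega⟩
    set y : Fin n → ℤ := fun k => ∑ j ∈ range (m + 1), 2 ^ j * (if k ∈ c (i + j) then (1 : ℤ) else 0) +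
      2 ^ (m + 1) * z k with hy
    have hxy : ∀ k, x k = 2 ^ i * y k := by
      intro k
      rw [hxk k, Finset.sum_range_add]
      have h0 : ∑ l ∈ range i, (2 : ℝ) ^ l * (if k ∈ c l then (1 : ℝ) else 0) = 0 := by
        apply Finset.sum_eq_zero
        intro l hl
        rw [hempty l (Finset.mem_range.1 hl)]
        simp
      rw [h0, zero_add, hy]
      push_cast
      rw [mul_add, Finset.mul_sum]
      have e1 : ∀ j ∈ Finset.range (m + 1),
          (2 : ℝ) ^ (i + j) * (if k ∈ c (i + j) then (1 : ℝ) else 0) =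
          2 ^ i * (2 ^ j * (if k ∈ c (i + j) then (1 : ℝ) else 0)) := by
        intro j _
        rw [pow_add]; ring
      rw [Finset.sum_congr rfl e1, pow_add]
      ring
    have hodd : ∀ k, k ∈ c i → Odd (y k) := by
      intro k hk
      have h1 := odd_digit 0 (m + 1) (fun j => if k ∈ c (i + j) then 1 else 0) (z k) (y k)
        (fun l => by by_cases h : k ∈ c (i + l) <;> simp [h]) (by omega) (by rw [pow_zero, one_mul])
      rw [← h1]
      simp [hk]
    have hsq : ∀ k ∈ c i, 1 ≤ y k ^ 2 := by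
      intro k hk
      have h1 := hodd k hk
      have h2 : y k ≠ 0 := by
        intro h
        rw [h] at h1
        exact absurd h1 (by decide)
      have h3 : 0 < y k ^ 2 := by positivity
      omega
    have hnorm := norm_sq_int hxy
    rw [hxr] at hnorm
    have hw := weight_ge hΛ hP hi (hc i hi) hcne
    have h4 : (0 : ℝ) < 4 ^ i := by positivity
    have hle : ∑ k, y k ^ 2 ≤ (c i).card := by
      rw [hnorm] at hw
      have := le_of_mul_le_mul_left hw h4
      exact_mod_cast this
    have hsplit : ∑ k, y k ^ 2 = ∑ k ∈ c i, y k ^ 2 + ∑ k ∈ univ \ c i, y k ^ 2 := by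
      rw [add_comm]
      exact (Finset.sum_sdiff (Finset.subset_univ _)).symm
    have hge : ((c i).card : ℤ) ≤ ∑ k ∈ c i, y k ^ 2 := by
      have := Finset.card_nsmul_le_sum (c i) (fun k => y k ^ 2) 1 hsq
      simpa using this
    have hoff : ∑ k ∈ univ \ c i, y k ^ 2 = 0 := by
      have : 0 ≤ ∑ k ∈ univ \ c i, y k ^ 2 := Finset.sum_nonneg fun _ _ => sq_nonneg _
      omega
    have hon : ∑ k ∈ c i, (y k ^ 2 - 1) = 0 := by
      rw [Finset.sum_sub_distrib]
      simp only [Finset.sum_const, nsmul_eq_mul, mul_one]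
      omega
    refine ⟨i, hi, c i, hc i hi, hcne, ?_, y, hxy, ?_, ?_⟩
    · rw [hnorm]
      congr 1
      have : ((c i).card : ℤ) = ∑ k, y k ^ 2 := by omega
      exact_mod_cast this
    · intro k hk
      have h5 := (Finset.sum_eq_zero_iff_of_nonneg (fun k hk => by
        have := hsq k hk; omega)).1 hon k hk
      have h6 : (y k - 1) * (y k + 1) = 0 := by linarith
      rcases mul_eq_zero.1 h6 with h7 | h7
      · left; omega
      · right; omega
    · intro k hk
      have h5 := (Finset.sum_eq_zero_iff_of_nonneg (fun k _ => sq_nonneg (y k))).1 hoff k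
        (Finset.mem_sdiff.2 ⟨Finset.mem_univ _, hk⟩)
      exact pow_eq_zero_iff (two_ne_zero) |>.1 h5

/-- a large bound, kept abstract -/
def Big (B : ℕ) : Prop := 2 ^ 1024 ≤ B

lemma exists_big : ∃ B, Big B := ⟨2 ^ 1024, le_refl _⟩

/-- the sets considered at level `i` -/
lemma few_lat (hn : 0 < n) (hΛ : (Λ : Set (EuclideanSpace ℝ (Fin n))) = constructionC a C) {r : ℝ}
    (hP : IsPacking (Λ : Set (EuclideanSpace ℝ (Fin n))) r) {i : ℕ} (hi : i < a)
    {c : Finset (Fin n)} (hc0 : c.Nonempty) (hcM : (4 : ℝ) ^ i * c.card = (2 * r) ^ 2)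
    (S : Finset (Finset (Fin n))) (hS : ∀ e ∈ S, e ⊆ c ∧ (i + 1 < a → e ∈ C (i + 1))) :
    S.card ≤ 2 ^ 1024 := by
  classical
  have h4i : (0 : ℝ) < 4 ^ i := by positivity
  rcases Nat.lt_or_ge (i + 1) a with h1 | h1
  · set D := (C (i + 1)).filter (fun e => e ⊆ c) with hD
    have hSD : S ⊆ D := by
      intro e he
      rw [hD, Finset.mem_filter]
      exact ⟨(hS e he).2 h1, (hS e he).1⟩
    refine (Finset.card_le_card hSD).trans ?_
    apply few_words (c := c)
    · intro x hx y hy
      rw [hD, Finset.mem_filter] at hx hy ⊢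
      refine ⟨(closure_codes hΛ h1 hx.1 hy.1).1, ?_⟩
      intro k hk
      rw [Finset.mem_symmDiff] at hk
      rcases hk with ⟨hk, _⟩ | ⟨hk, _⟩
      · exact hx.2 hk
      · exact hy.2 hk
    · exact hc0
    · intro w hw
      rw [hD, Finset.mem_filter] at hw
      exact hw.2
    · intro T hT hTne hTc hcom
      have hpos : (1 : ℝ) ≤ (com T).card := by exact_mod_cast Finset.card_pos.2 hcom
      have key : (2 * r) ^ 2 ≤ 4 ^ (i + 5) * (com T).card := by
        rcases Nat.lt_or_ge (i + 1 + 4) a with h2 | h2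
        · have h3 := inter_mem hΛ (i := i + 1) (t := T.card) (F := fun l => ((T.equivFin.symm l) : Finset (Fin n)))
            (fun l => (Finset.mem_filter.1 (hT (T.equivFin.symm l).2)).1) 4 univ
            (by
              have : Nonempty (Fin T.card) := ⟨⟨0, Finset.card_pos.2 hTne⟩⟩
              exact Finset.univ_nonempty) (by simpa using hTc) h2
          have e : univ.filter (fun k => ∀ l ∈ (univ : Finset (Fin T.card)),
              k ∈ ((T.equivFin.symm l) : Finset (Fin n))) = com T := by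
            ext k
            rw [mem_com]
            simp only [Finset.mem_filter, Finset.mem_univ, true_and, forall_true_left]
            constructor
            · intro h v hv
              have := h (T.equivFin ⟨v, hv⟩)
              rw [Equiv.symm_apply_apply] at this
              exact this
            · intro h l
              exact h _ (T.equivFin.symm l).2
          rw [e] at h3
          exact weight_ge hΛ hP h2 h3 hcom
        · have h3 := top_ge hn hΛ hP
          have h5 : (4 : ℝ) ^ a ≤ 4 ^ (i + 5) := pow_le_pow_right₀ (by norm_num) (by omega)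
          have h6 : (0 : ℝ) < 4 ^ (i + 5) := by positivity
          nlinarith
      rw [← hcM, pow_add, mul_assoc] at key
      have h7 := le_of_mul_le_mul_left key h4i
      norm_num at h7
      exact_mod_cast h7
  · have h2 := top_ge hn hΛ hP
    have h3 : a = i + 1 := by omega
    rw [← hcM, h3, pow_succ] at h2
    have h5 := le_of_mul_le_mul_left h2 h4i
    have h6 : c.card ≤ 4 := by exact_mod_cast h5
    have h7 : S ⊆ c.powerset := by
      intro e he
      rw [Finset.mem_powerset]
      exact (hS e he).1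
    refine (Finset.card_le_card h7).trans ?_
    rw [Finset.card_powerset]
    exact Nat.pow_le_pow_right (by norm_num) (by omega)

/-- the words of minimal norm at level `i` -/
noncomputable def minWords (C : ℕ → Finset (Finset (Fin n))) (i : ℕ) (M : ℝ) :
    Finset (Finset (Fin n)) := by
  classical
  exact (C i).filter (fun c => c.Nonempty ∧ (4 : ℝ) ^ i * c.card = M)

lemma mem_minWords {C : ℕ → Finset (Finset (Fin n))} {i : ℕ} {M : ℝ} {c : Finset (Fin n)} :
    c ∈ minWords C i M ↔ c ∈ C i ∧ c.Nonempty ∧ (4 : ℝ) ^ i * c.card = M := by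
  rw [minWords, Finset.mem_filter]

lemma fam_lat {B : ℕ} (hB : Big B) (hn : 0 < n) (hΛ : (Λ : Set (EuclideanSpace ℝ (Fin n))) = constructionC a C) {r : ℝ}
    (hP : IsPacking (Λ : Set (EuclideanSpace ℝ (Fin n))) r) {i : ℕ} (hi : i < a) {N : ℕ}
    (hN : 0 < N) (hNM : (4 : ℝ) ^ i * N = (2 * r) ^ 2) :
    Fam (minWords C i ((2 * r) ^ 2)) N (fun e => i + 1 < a → e ∈ C (i + 1)) B := by
  classical
  have h4i : (0 : ℝ) < 4 ^ i := by positivity
  have hcard : ∀ c ∈ minWords C i ((2 * r) ^ 2), c.card = N := by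
    intro c hc
    rw [mem_minWords] at hc
    have h1 := hc.2.2
    rw [← hNM] at h1
    have := mul_left_cancel₀ h4i.ne' h1
    exact_mod_cast this
  refine ⟨hcard, hN, ?_, ?_, ?_, ?_, ?_⟩
  · intro c hc c' hc' hne
    have h1 := (closure_codes hΛ hi (mem_minWords.1 hc).1 (mem_minWords.1 hc').1).1
    have h2 : (symmDiff c c').Nonempty := by
      rw [Finset.nonempty_iff_ne_empty]
      intro h
      apply hne
      rw [← Finset.bot_eq_empty, symmDiff_eq_bot] at h
      exact h
    have h3 := weight_ge hΛ hP hi h1 h2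
    rw [← hNM] at h3
    have h4 := le_of_mul_le_mul_left h3 h4i
    have h5 : N ≤ (symmDiff c c').card := by exact_mod_cast h4
    have h6 : (symmDiff c c').card = (c \ c').card + (c' \ c).card := by
      rw [symmDiff_def, Finset.sup_eq_union, Finset.card_union_of_disjoint]
      exact disjoint_sdiff_sdiff
    have h7 := Finset.card_inter_add_card_sdiff c c'
    have h8 := Finset.card_inter_add_card_sdiff c' c
    rw [Finset.inter_comm c' c] at h8
    have h9 := hcard c hc
    have h10 := hcard c' hc'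
    omega
  · intro c hc c' hc' _ h
    exact (closure_codes hΛ hi (mem_minWords.1 hc).1 (mem_minWords.1 hc').1).2 h
  · intro e e' he he' hee'
    have h1 : (e' \ e).Nonempty := by
      rw [Finset.sdiff_nonempty]
      exact fun h => hee'.2 h
    have h2 : (e' \ e).card = e'.card - e.card := Finset.card_sdiff_of_subset hee'.1
    have h3 := Finset.card_le_card hee'.1
    have key : N ≤ 4 * (e' \ e).card := by
      rcases Nat.lt_or_ge (i + 1) a with h4 | h4
      · have h5 := (closure_codes hΛ h4 (he' h4) (he h4)).1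
        have h6 : symmDiff e' e = e' \ e := by
          rw [symmDiff_def, Finset.sup_eq_union, Finset.sdiff_eq_empty_iff_subset.2 hee'.1,
            Finset.union_empty]
        rw [h6] at h5
        have h7 := weight_ge hΛ hP h4 h5 h1
        rw [← hNM, pow_succ, mul_assoc] at h7
        have h8 := le_of_mul_le_mul_left h7 h4i
        exact_mod_cast h8
      · have h5 := top_ge hn hΛ hP
        have h6 : a = i + 1 := by omega
        rw [← hNM, h6, pow_succ] at h5
        have h7 := le_of_mul_le_mul_left h5 h4i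
        have h8 : N ≤ 4 := by exact_mod_cast h7
        have h9 := Finset.card_pos.2 h1
        omega
    omega
  · intro c hc S hS
    rw [mem_minWords] at hc
    exact (few_lat hn hΛ hP hi hc.2.1 hc.2.2 S hS).trans hB
  · intro h
    exact empty_mem hΛ h

/-- the number of minimal vectors above one word -/
lemma fibre {B : ℕ} (hB : Big B) (hn : 0 < n) (hΛ : (Λ : Set (EuclideanSpace ℝ (Fin n))) = constructionC a C) {r : ℝ}
    (hP : IsPacking (Λ : Set (EuclideanSpace ℝ (Fin n))) r) {i : ℕ} (hi : i < a)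
    {c : Finset (Fin n)} (hc : c ∈ minWords C i ((2 * r) ^ 2))
    (F : Finset (EuclideanSpace ℝ (Fin n))) (hF : ∀ x ∈ F, x ∈ Λ ∧ Signed i c x) :
    F.card ≤ B := by
  classical
  rcases Finset.eq_empty_or_nonempty F with h0 | ⟨x0, hx0⟩
  · rw [h0]; simp
  rw [mem_minWords] at hc
  set P : EuclideanSpace ℝ (Fin n) → Finset (Fin n) := fun x => univ.filter (fun k => 0 < x k) with hP'
  have h2i : (0 : ℝ) < 2 ^ i := by positivity
  have hPx : ∀ x ∈ F, ∀ k, x k = 2 ^ i * (if k ∈ c then (if k ∈ P x then 1 else -1) else 0) := by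
    intro x hx k
    obtain ⟨y, hy1, hy2, hy3⟩ := (hF x hx).2
    by_cases hk : k ∈ c
    · rw [if_pos hk]
      rcases hy2 k hk with h | h
      · have h1 : x k = 2 ^ i := by rw [hy1 k, h]; simp
        have h2 : k ∈ P x := by
          rw [hP', Finset.mem_filter]
          exact ⟨Finset.mem_univ _, by rw [h1]; exact h2i⟩
        rw [if_pos h2, h1, mul_one]
      · have h1 : x k = -2 ^ i := by rw [hy1 k, h]; simp
        have h2 : k ∉ P x := by
          rw [hP', Finset.mem_filter]
          rintro ⟨_, h3⟩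
          rw [h1] at h3
          linarith
        rw [if_neg h2, h1]; ring
    · rw [if_neg hk, hy1 k, hy3 k hk]; simp
  have hPc : ∀ x ∈ F, P x ⊆ c := by
    intro x hx k hk
    by_contra h
    have h1 := hPx x hx k
    rw [if_neg h, mul_zero] at h1
    rw [hP', Finset.mem_filter] at hk
    linarith [hk.2]
  have hmem : ∀ x ∈ F, symmDiff (P x) (P x0) ⊆ c ∧ (i + 1 < a → symmDiff (P x) (P x0) ∈ C (i + 1)) := by
    intro x hx
    constructor
    · intro k hk
      rw [Finset.mem_symmDiff] at hk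
      rcases hk with ⟨hk, _⟩ | ⟨hk, _⟩
      · exact hPc x hx hk
      · exact hPc x0 hx0 hk
    · intro hia
      have h1 : x - x0 ∈ Λ := Λ.sub_mem (hF x hx).1 (hF x0 hx0).1
      set u : Fin n → ℤ := fun k => (if k ∈ P x then 1 else 0) - (if k ∈ P x0 then 1 else 0) with hu
      have h2 : ∀ k, (x - x0) k = 2 ^ (i + 1) * u k := by
        intro k
        rw [PiLp.sub_apply, hPx x hx k, hPx x0 hx0 k, hu, pow_succ]
        by_cases hk : k ∈ c
        · by_cases h3 : k ∈ P x <;> by_cases h4 : k ∈ P x0 <;> simp [hk, h3, h4] <;> ring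
        · have h3 : k ∉ P x := fun h => hk (hPc x hx h)
          have h4 : k ∉ P x0 := fun h => hk (hPc x0 hx0 h)
          simp [hk, h3, h4]
      have h3 := odd_mem hΛ h1 hia h2
      have h4 : univ.filter (fun k => Odd (u k)) = symmDiff (P x) (P x0) := by
        ext k
        rw [Finset.mem_filter, Finset.mem_symmDiff]
        simp only [Finset.mem_univ, true_and, hu]
        by_cases h3 : k ∈ P x <;> by_cases h4 : k ∈ P x0 <;> simp [h3, h4]
      rw [← h4]
      exact h3
  have hinj : Set.InjOn (fun x => symmDiff (P x) (P x0)) (F : Set (EuclideanSpace ℝ (Fin n))) := by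
    intro x hx x' hx' hxx'
    have h1 : P x = P x' := symmDiff_left_injective _ hxx'
    ext k
    rw [hPx x hx k, hPx x' hx' k, h1]
  rw [← Finset.card_image_of_injOn hinj]
  refine le_trans (few_lat hn hΛ hP hi hc.2.1 hc.2.2 _ ?_) hB
  intro e he
  obtain ⟨x, hx, rfl⟩ := Finset.mem_image.1 he
  exact hmem x hx

lemma sum64 {M : ℝ} (hM : 0 ≤ M) : ∀ a : ℕ,
    ∑ i ∈ range a, (if (4 : ℝ) ^ i ≤ M then (64 : ℝ) ^ i else 0) ≤ 64 / 63 * M ^ 3 := by
  intro a
  induction a with
  | zero => simp; positivity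
  | succ a ih =>
    rw [Finset.sum_range_succ]
    split_ifs with h
    · have h1 : ∑ i ∈ range a, (if (4 : ℝ) ^ i ≤ M then (64 : ℝ) ^ i else 0) ≤ (64 ^ a - 1) / 63 := by
        have : ∑ i ∈ range a, (64 : ℝ) ^ i = (64 ^ a - 1) / 63 := by
          rw [geom_sum_eq (by norm_num)]; norm_num
        rw [← this]
        apply Finset.sum_le_sum
        intro i _
        split_ifs
        · exact le_rfl
        · positivity
      have h2 : (64 : ℝ) ^ a ≤ M ^ 3 := by
        have : (64 : ℝ) ^ a = (4 ^ a) ^ 3 := by rw [← pow_mul, mul_comm, pow_mul]; norm_num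
        rw [this]
        exact pow_le_pow_left₀ (by positivity) h 3
      linarith
    · rw [add_zero]; exact ih

/-- **Kissing numbers of lattices from Construction C**: the upper bound. -/
theorem kiss3 : ∃ K : ℕ, ∀ (n : ℕ) (_ : 0 < n) (a : ℕ) (C : ℕ → Finset (Finset (Fin n)))
    (Λ : AddSubgroup (EuclideanSpace ℝ (Fin n)))
    (_ : (Λ : Set (EuclideanSpace ℝ (Fin n))) = constructionC a C) (r : ℝ)
    (_ : IsPacking (Λ : Set (EuclideanSpace ℝ (Fin n))) r) (F : Finset (EuclideanSpace ℝ (Fin n)))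
    (_ : ∀ x ∈ F, x ∈ Λ ∧ ‖x‖ = 2 * r), F.card ≤ K * n ^ 3 := by
  obtain ⟨B, hB⟩ := exists_big
  refine ⟨3 + 5 * B ^ 4, ?_⟩
  intro n hn a C Λ hΛ r hP F hF
  classical
  set M : ℝ := (2 * r) ^ 2 with hM
  have hr : 0 < r := hP.1
  have hMpos : 0 < M := by positivity
  set F0 := F.filter (fun x => ∃ z : Fin n → ℤ, (∀ k, x k = 2 ^ a * (z k : ℝ)) ∧
    ∑ k, z k ^ 2 ≤ 1) with hF0
  set F1 : ℕ → Finset (EuclideanSpace ℝ (Fin n)) := fun i =>
    F.filter (fun x => ∃ c ∈ minWords C i M, Signed i c x) with hF1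
  have hcov : F ⊆ F0 ∪ (range a).biUnion F1 := by
    intro x hx
    rw [Finset.mem_union]
    rcases shape hn hΛ hP (hF x hx).1 (by rw [(hF x hx).2]) with h | ⟨i, hi, c, hc, hc0, hcM, hs⟩
    · left
      rw [hF0, Finset.mem_filter]
      exact ⟨hx, h⟩
    · right
      rw [Finset.mem_biUnion]
      refine ⟨i, Finset.mem_range.2 hi, ?_⟩
      rw [hF1, Finset.mem_filter]
      exact ⟨hx, c, mem_minWords.2 ⟨hc, hc0, hcM⟩, hs⟩
  have h0 : F0.card ≤ 2 * n + 1 := by
    have h1 : ∀ x : EuclideanSpace ℝ (Fin n), ∃ z : Fin n → ℤ, x ∈ F0 →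
        (∀ k, x k = 2 ^ a * (z k : ℝ)) ∧ ∑ k, z k ^ 2 ≤ 1 := by
      intro x
      by_cases hx : x ∈ F0
      · obtain ⟨z, hz⟩ := (Finset.mem_filter.1 hx).2
        exact ⟨z, fun _ => hz⟩
      · exact ⟨0, fun h => absurd h hx⟩
    choose z hz using h1
    have h2 : F0.card ≤ (short n 1).card := by
      apply Finset.card_le_card_of_injOn z
      · intro x hx
        apply mem_short'
        simpa using (hz x hx).2
      · intro x hx x' hx' hxx'
        ext k
        rw [(hz x hx).1 k, (hz x' hx').1 k, hxx']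
    refine h2.trans ((card_short n 1).trans ?_)
    simp
  have hn' : (0 : ℝ) < n := by exact_mod_cast hn
  have h1 : ∀ i ∈ range a, ((F1 i).card : ℝ) ≤
      4 * B ^ 4 * n ^ 3 / M ^ 3 * (if (4 : ℝ) ^ i ≤ M then (64 : ℝ) ^ i else 0) := by
    intro i hi
    rw [Finset.mem_range] at hi
    rcases Finset.eq_empty_or_nonempty (minWords C i M) with h2 | ⟨c0, hc0⟩
    · have h3 : F1 i = ∅ := by
        rw [hF1, Finset.filter_eq_empty_iff]
        intro x _
        rw [h2]
        simp
      rw [h3, Finset.card_empty, Nat.cast_zero]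
      split_ifs <;> positivity
    · have h3 := (mem_minWords.1 hc0).2
      have hN : 0 < c0.card := Finset.card_pos.2 h3.1
      have hNr : (1 : ℝ) ≤ c0.card := by exact_mod_cast hN
      have h4i : (0 : ℝ) < 4 ^ i := by positivity
      have h4 : (4 : ℝ) ^ i ≤ M := by
        rw [← h3.2]
        nlinarith
      rw [if_pos h4]
      have h5 := fam_card (fam_lat hB hn hΛ hP hi hN h3.2)
      rw [← hM] at h5
      have h6 : (F1 i).card ≤ (minWords C i M).card * B := by
        have h7 : F1 i ⊆ (minWords C i M).biUnion (fun c => F.filter (fun x => Signed i c x)) := by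
          intro x hx
          rw [hF1, Finset.mem_filter] at hx
          obtain ⟨hx1, c, hc, hs⟩ := hx
          rw [Finset.mem_biUnion]
          exact ⟨c, hc, Finset.mem_filter.2 ⟨hx1, hs⟩⟩
        refine (Finset.card_le_card h7).trans ?_
        apply Finset.card_biUnion_le_card_mul
        intro c hc
        apply fibre hB hn hΛ hP hi hc
        intro x hx
        rw [Finset.mem_filter] at hx
        exact ⟨(hF x hx.1).1, hx.2⟩
      have h7 : ((F1 i).card : ℝ) ≤ (minWords C i M).card * B := by exact_mod_cast h6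
      have h8 : (c0.card : ℝ) = M / 4 ^ i := by
        rw [← h3.2]; field_simp
      have h9 : ((F1 i).card : ℝ) * (c0.card : ℝ) ^ 3 ≤ 4 * B ^ 4 * n ^ 3 := by
        calc ((F1 i).card : ℝ) * (c0.card : ℝ) ^ 3 ≤ (minWords C i M).card * B * (c0.card : ℝ) ^ 3 :=
              mul_le_mul_of_nonneg_right h7 (by positivity)
          _ = ((minWords C i M).card * (c0.card : ℝ) ^ 3) * B := by ring
          _ ≤ (4 * B ^ 3 * n ^ 3) * B := mul_le_mul_of_nonneg_right h5 (by positivity)
          _ = 4 * B ^ 4 * n ^ 3 := by ring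
      have h10 : (64 : ℝ) ^ i = (4 ^ i) ^ 3 := by rw [← pow_mul, mul_comm, pow_mul]; norm_num
      rw [h8] at h9
      rw [h10, div_mul_eq_mul_div, le_div_iff₀ (by positivity)]
      have h11 : ((F1 i).card : ℝ) * (M / 4 ^ i) ^ 3 = (F1 i).card * M ^ 3 / (4 ^ i) ^ 3 := by
        rw [div_pow]; ring
      rw [h11, div_le_iff₀ (by positivity)] at h9
      exact h9
  have h2 : (F.card : ℝ) ≤ (2 * n + 1) + 4 * B ^ 4 * n ^ 3 / M ^ 3 * (64 / 63 * M ^ 3) := by
    have h3 : F.card ≤ F0.card + ∑ i ∈ range a, (F1 i).card :=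
      (Finset.card_le_card hcov).trans ((Finset.card_union_le _ _).trans
        (Nat.add_le_add_left Finset.card_biUnion_le _))
    have h4 : (F.card : ℝ) ≤ F0.card + ∑ i ∈ range a, ((F1 i).card : ℝ) := by exact_mod_cast h3
    have h5 : (F0.card : ℝ) ≤ 2 * n + 1 := by exact_mod_cast h0
    have h6 := Finset.sum_le_sum h1
    rw [← Finset.mul_sum] at h6
    have h7 := sum64 hMpos.le a
    have h8 : (0 : ℝ) ≤ 4 * B ^ 4 * n ^ 3 / M ^ 3 := by positivity
    have h9 := mul_le_mul_of_nonneg_left h7 h8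
    linarith
  have h3 : 4 * (B : ℝ) ^ 4 * n ^ 3 / M ^ 3 * (64 / 63 * M ^ 3) = 256 / 63 * (B ^ 4 * n ^ 3) := by
    field_simp
    ring
  rw [h3] at h2
  have h4 : (0 : ℝ) ≤ (B : ℝ) ^ 4 * n ^ 3 := by positivity
  have hn1 : (1 : ℝ) ≤ n := by exact_mod_cast hn
  have h5 : (n : ℝ) ≤ n ^ 3 := by
    have : (1 : ℝ) ≤ n ^ 2 := one_le_pow₀ hn1
    nlinarith
  have h6 : (F.card : ℝ) ≤ ((3 + 5 * B ^ 4) * n ^ 3 : ℕ) := by
    push_cast
    nlinarith
  exact_mod_cast h6

end Pool.Agent.helper275_conc
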