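import Pool.Agent.helper275_conc.Kiss3

/-! Lattices from Construction C (one level) with kissing number at least `n^3/512`. -/

open MeasureTheory Metric Filter
open scoped Topology

namespace Pool.Agent.helper275_conc
open Pool.Agent.H818R2 Pool.Agent.helper275_codes Finset

section low

variable {n d : ℕ}

/-- the labels -/
abbrev V (d : ℕ) : Type := ZMod 2 × ZMod 2 × (Fin d → ZMod 2)

/-- the values of the parity checks -/
abbrev Y (n d : ℕ) : Type := ZMod 2 × (V d × (Fin n → ZMod 2))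

lemma two_smul_Y (y : Y n d) : y + y = 0 := by
  obtain ⟨y1, ⟨y2, y3, y4⟩, y5⟩ := y
  have h : ∀ z : ZMod 2, z + z = 0 := by decide
  refine Prod.ext (h _) (Prod.ext (Prod.ext (h _) (Prod.ext (h _) ?_)) ?_)
  · funext i; exact h _
  · funext i; exact h _

open Classical in
/-- the columns of the parity check matrix -/
noncomputable def g (ψ : V d → Fin n) (k : Fin n) : Y n d :=
  (1, if k ∈ Set.range ψ then (Function.invFun ψ k, 0) else (0, Pi.single k 1))

lemma g_psi {ψ : V d → Fin n} (hψ : Function.Injective ψ) (v : V d) : g ψ (ψ v) = (1, (v, 0)) := by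
  rw [g, if_pos ⟨v, rfl⟩, Function.leftInverse_invFun hψ]

lemma g_inj {ψ : V d → Fin n} (hψ : Function.Injective ψ) : Function.Injective (g ψ) := by
  intro k k' h
  have h1 : (g ψ k).2 = (g ψ k').2 := by rw [h]
  rw [g, g] at h1
  simp only at h1
  by_cases hk : k ∈ Set.range ψ <;> by_cases hk' : k' ∈ Set.range ψ
  · obtain ⟨v, rfl⟩ := hk
    obtain ⟨v', rfl⟩ := hk'
    rw [if_pos ⟨v, rfl⟩, if_pos ⟨v', rfl⟩, Function.leftInverse_invFun hψ,
      Function.leftInverse_invFun hψ] at h1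
    have h2 : v = v' := (Prod.ext_iff.1 h1).1
    rw [h2]
  · rw [if_pos hk, if_neg hk'] at h1
    have h2 := congrFun (Prod.ext_iff.1 h1).2 k'
    simp at h2
  · rw [if_neg hk, if_pos hk'] at h1
    have h2 := congrFun (Prod.ext_iff.1 h1).2 k
    simp at h2
  · rw [if_neg hk, if_neg hk'] at h1
    have h2 := congrFun (Prod.ext_iff.1 h1).2 k
    by_contra hne
    simp [hne] at h2

/-- the code -/
noncomputable def code (ψ : V d → Fin n) : Finset (Finset (Fin n)) :=
  by classical exact univ.filter (fun S => ∑ k ∈ S, g ψ k = 0)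

lemma mem_code {ψ : V d → Fin n} {S : Finset (Fin n)} : S ∈ code ψ ↔ ∑ k ∈ S, g ψ k = 0 := by
  rw [code, Finset.mem_filter]
  simp

lemma code_weight {ψ : V d → Fin n} (hψ : Function.Injective ψ) {S : Finset (Fin n)}
    (hS : S ∈ code ψ) (hS0 : S.Nonempty) : 4 ≤ S.card := by
  rw [mem_code] at hS
  have h1 : ((S.card : ℕ) : ZMod 2) = 0 := by
    have h2 := congrArg Prod.fst hS
    rw [Prod.fst_sum] at h2
    simp only [g, Finset.sum_const, nsmul_eq_mul, mul_one, Prod.fst_zero] at h2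
    exact h2
  have h3 : 2 ∣ S.card := (ZMod.natCast_eq_zero_iff _ _).1 h1
  have h4 := Finset.card_pos.2 hS0
  have h5 : S.card ≠ 2 := by
    intro h
    obtain ⟨x, y, hxy, rfl⟩ := Finset.card_eq_two.1 h
    rw [Finset.sum_pair hxy] at hS
    apply hxy
    apply g_inj hψ
    calc g ψ x = g ψ x + (g ψ y + g ψ y) := by rw [two_smul_Y, add_zero]
      _ = g ψ y := by rw [← add_assoc, hS, zero_add]
  omega

/-- membership in the lattice -/
lemma mem_conC {ψ : V d → Fin n} {x : EuclideanSpace ℝ (Fin n)} :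
    x ∈ constructionC 1 (fun _ => code ψ) ↔
      ∃ z : Fin n → ℤ, (∀ k, x k = z k) ∧ ∑ k, z k • g ψ k = 0 := by
  classical
  have hpar : ∀ (z : ℤ) (y : Y n d), z • y = if Odd z then y else 0 := by
    intro z y
    split_ifs with h
    · obtain ⟨w, rfl⟩ := h
      rw [add_zsmul, one_zsmul, mul_comm, mul_zsmul, two_zsmul, two_smul_Y, smul_zero, zero_add]
    · rw [Int.not_odd_iff_even] at h
      obtain ⟨w, rfl⟩ := h
      rw [add_zsmul, two_smul_Y]
  have hsum : ∀ z : Fin n → ℤ, ∑ k, z k • g ψ k = ∑ k ∈ univ.filter (fun k => Odd (z k)), g ψ k := by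
    intro z
    rw [Finset.sum_filter]
    exact Finset.sum_congr rfl fun k _ => hpar _ _
  constructor
  · rintro ⟨c, z, hc, hx⟩
    refine ⟨fun k => (if k ∈ c 0 then 1 else 0) + 2 * z k, fun k => ?_, ?_⟩
    · rw [hx k]
      simp
    · rw [hsum]
      have : univ.filter (fun k => Odd ((if k ∈ c 0 then (1 : ℤ) else 0) + 2 * z k)) = c 0 := by
        ext k
        rw [Finset.mem_filter]
        by_cases h : k ∈ c 0
        · simp only [Finset.mem_univ, true_and, h, if_true, iff_true]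
          exact ⟨z k, by ring⟩
        · simp only [Finset.mem_univ, true_and, h, if_false, iff_false, zero_add]
          rw [Int.not_odd_iff_even]
          exact ⟨z k, by ring⟩
      rw [this]
      exact mem_code.1 (hc 0 (by norm_num))
  · rintro ⟨z, hz, h0⟩
    refine ⟨fun _ => univ.filter (fun k => Odd (z k)), fun k => z k / 2, ?_, ?_⟩
    · intro i _
      rw [mem_code, ← hsum]
      exact h0
    · intro k
      rw [hz k]
      simp only [Finset.range_one, Finset.sum_singleton, pow_zero, one_mul, pow_one,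
        Finset.mem_filter, Finset.mem_univ, true_and]
      have h1 : z k = (if Odd (z k) then 1 else 0) + 2 * (z k / 2) := by
        split_ifs with h
        · obtain ⟨w, hw⟩ := h
          omega
        · rw [Int.not_odd_iff_even] at h
          obtain ⟨w, hw⟩ := h
          omega
      have h2 : (z k : ℝ) = (((if Odd (z k) then 1 else 0) + 2 * (z k / 2) : ℤ) : ℝ) := by
        exact_mod_cast h1
      rw [h2]
      push_cast
      rfl

/-- the lattice -/
noncomputable def low (ψ : V d → Fin n) : AddSubgroup (EuclideanSpace ℝ (Fin n)) where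
  carrier := constructionC 1 (fun _ => code ψ)
  add_mem' := by
    intro x y hx hy
    obtain ⟨z, hz, h1⟩ := mem_conC.1 hx
    obtain ⟨w, hw, h2⟩ := mem_conC.1 hy
    refine mem_conC.2 ⟨z + w, fun k => ?_, ?_⟩
    · rw [PiLp.add_apply, hz k, hw k]
      push_cast [Pi.add_apply]
      ring
    · simp only [Pi.add_apply, add_zsmul]
      rw [Finset.sum_add_distrib, h1, h2, add_zero]
  zero_mem' := mem_conC.2 ⟨0, fun k => by simp, by simp⟩
  neg_mem' := by
    intro x hx
    obtain ⟨z, hz, h1⟩ := mem_conC.1 hx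
    refine mem_conC.2 ⟨-z, fun k => ?_, ?_⟩
    · rw [PiLp.neg_apply, hz k]
      push_cast [Pi.neg_apply]
      ring
    · simp only [Pi.neg_apply, neg_zsmul]
      rw [Finset.sum_neg_distrib, h1, neg_zero]

lemma low_norm {ψ : V d → Fin n} (hψ : Function.Injective ψ) {x : EuclideanSpace ℝ (Fin n)}
    (hx : x ∈ low ψ) (hx0 : x ≠ 0) : 2 ≤ ‖x‖ := by
  classical
  have hx' : x ∈ constructionC 1 (fun _ => code ψ) := hx
  obtain ⟨c, z, hc, hxk⟩ := hx'
  have hy : ∀ k, x k = 2 ^ 0 * (((if k ∈ c 0 then (1 : ℤ) else 0) + 2 * z k : ℤ) : ℝ) := by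
    intro k
    rw [hxk k]
    simp
  have h1 := norm_sq_int hy
  rw [pow_zero, one_mul] at h1
  have h2 : (4 : ℤ) ≤ ∑ k, ((if k ∈ c 0 then (1 : ℤ) else 0) + 2 * z k) ^ 2 := by
    rcases Finset.eq_empty_or_nonempty (c 0) with h0 | h0
    · obtain ⟨k, hk⟩ : ∃ k, z k ≠ 0 := by
        by_contra hcon
        push Not at hcon
        apply hx0
        ext k
        rw [hxk k]
        simp [h0, hcon k]
      refine le_trans ?_ (Finset.single_le_sum (f := fun k =>
        ((if k ∈ c 0 then (1 : ℤ) else 0) + 2 * z k) ^ 2) (fun _ _ => sq_nonneg _) (Finset.mem_univ k))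
      simp only [h0, Finset.notMem_empty, if_false, zero_add]
      have : 0 < z k ^ 2 := by positivity
      nlinarith
    · have h3 := code_weight hψ (hc 0 (by norm_num)) h0
      calc (4 : ℤ) ≤ (c 0).card := by exact_mod_cast h3
        _ = ∑ k ∈ c 0, (1 : ℤ) := by simp
        _ ≤ ∑ k ∈ c 0, ((if k ∈ c 0 then (1 : ℤ) else 0) + 2 * z k) ^ 2 := by
            apply Finset.sum_le_sum
            intro k hk
            rw [if_pos hk]
            have : (1 : ℤ) + 2 * z k ≠ 0 := by omega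
            have : 0 < ((1 : ℤ) + 2 * z k) ^ 2 := by positivity
            omega
        _ ≤ _ := Finset.sum_le_sum_of_subset_of_nonneg (Finset.subset_univ _)
            (fun _ _ _ => sq_nonneg _)
  have h3 : (4 : ℝ) ≤ ‖x‖ ^ 2 := by
    rw [h1]
    exact_mod_cast h2
  nlinarith [norm_nonneg x]

/-- the words of weight four -/
noncomputable def word (ψ : V d → Fin n) (t : (Fin d → ZMod 2) × (Fin d → ZMod 2) × (Fin d → ZMod 2)) :
    Finset (Fin n) :=
  {ψ (0, 0, t.1), ψ (0, 1, t.2.1), ψ (1, 0, t.2.2), ψ (1, 1, t.1 + t.2.1 + t.2.2)}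

lemma word_nm {ψ : V d → Fin n} (hψ : Function.Injective ψ) {t : (Fin d → ZMod 2) × (Fin d → ZMod 2) ×
    (Fin d → ZMod 2)} : ψ (0, 0, t.1) ∉ ({ψ (0, 1, t.2.1), ψ (1, 0, t.2.2),
      ψ (1, 1, t.1 + t.2.1 + t.2.2)} : Finset (Fin n)) ∧
    ψ (0, 1, t.2.1) ∉ ({ψ (1, 0, t.2.2), ψ (1, 1, t.1 + t.2.1 + t.2.2)} : Finset (Fin n)) ∧
    ψ (1, 0, t.2.2) ≠ ψ (1, 1, t.1 + t.2.1 + t.2.2) := by
  refine ⟨?_, ?_, ?_⟩ <;> simp [hψ.eq_iff]

lemma word_card {ψ : V d → Fin n} (hψ : Function.Injective ψ) (t) : (word ψ t).card = 4 := by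
  obtain ⟨h1, h2, h3⟩ := word_nm hψ (t := t)
  rw [word, Finset.card_insert_of_notMem h1, Finset.card_insert_of_notMem h2, Finset.card_pair h3]

lemma word_code {ψ : V d → Fin n} (hψ : Function.Injective ψ) (t) : word ψ t ∈ code ψ := by
  obtain ⟨h1, h2, h3⟩ := word_nm hψ (t := t)
  rw [mem_code, word, Finset.sum_insert h1, Finset.sum_insert h2, Finset.sum_pair h3, g_psi hψ,
    g_psi hψ, g_psi hψ, g_psi hψ]
  have h : ∀ z : ZMod 2, z + z = 0 := by decide
  have e : ∀ a b c : ZMod 2, a + (b + (c + (a + b + c))) = 0 := by decide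
  refine Prod.ext ?_ (Prod.ext (Prod.ext ?_ (Prod.ext ?_ ?_)) ?_)
  · show (1 : ZMod 2) + (1 + (1 + 1)) = 0
    decide
  · show (0 : ZMod 2) + (0 + (1 + 1)) = 0
    decide
  · show (0 : ZMod 2) + (1 + (0 + 1)) = 0
    decide
  · funext i
    exact e _ _ _
  · show (0 : Fin n → ZMod 2) + (0 + (0 + 0)) = 0
    simp

lemma word_inj {ψ : V d → Fin n} (hψ : Function.Injective ψ) : Function.Injective (word ψ) := by
  intro t t' h
  have h1 : ψ (0, 0, t.1) ∈ word ψ t' := by rw [← h, word]; simp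
  have h2 : ψ (0, 1, t.2.1) ∈ word ψ t' := by rw [← h, word]; simp
  have h3 : ψ (1, 0, t.2.2) ∈ word ψ t' := by rw [← h, word]; simp
  rw [word] at h1 h2 h3
  simp [hψ.eq_iff] at h1 h2 h3
  exact Prod.ext h1 (Prod.ext h2 h3)

/-- the points of norm 2 -/
noncomputable def pts (ψ : V d → Fin n) : Finset (EuclideanSpace ℝ (Fin n)) := by
  classical exact univ.image (fun t => pt 0 (word ψ t))

lemma pt_inj {A B : Finset (Fin n)} (h : pt 0 A = pt 0 B) : A = B := by
  ext k
  have h1 := congrArg (fun x : EuclideanSpace ℝ (Fin n) => x k) h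
  simp only [pt] at h1
  by_cases ha : k ∈ A <;> by_cases hb : k ∈ B <;> simp [ha, hb] at h1 ⊢

lemma card_pts {ψ : V d → Fin n} (hψ : Function.Injective ψ) : (pts ψ).card = (2 ^ d) ^ 3 := by
  classical
  rw [pts, Finset.card_image_of_injective _ (fun t t' h => word_inj hψ (pt_inj h)), Finset.card_univ,
    Fintype.card_prod, Fintype.card_prod, Fintype.card_fun, ZMod.card, Fintype.card_fin]
  ring

lemma pts_mem {ψ : V d → Fin n} (hψ : Function.Injective ψ) {x : EuclideanSpace ℝ (Fin n)}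
    (hx : x ∈ pts ψ) : x ∈ low ψ ∧ ‖x‖ = 2 := by
  classical
  rw [pts, Finset.mem_image] at hx
  obtain ⟨t, _, rfl⟩ := hx
  constructor
  · exact pt_mem (Λ := low ψ) (a := 1) (C := fun _ => code ψ) rfl (by norm_num) (word_code hψ t)
  · have h1 := norm_pt 0 (word ψ t)
    rw [word_card hψ] at h1
    have h2 : ‖pt 0 (word ψ t)‖ ^ 2 = 2 ^ 2 := by rw [h1]; norm_num
    exact (pow_left_inj₀ (norm_nonneg _) (by norm_num) (by norm_num)).1 h2

end low

variable {n : ℕ}

/-- The shortest nonzero vectors -/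
def minVecs (Λ : AddSubgroup (EuclideanSpace ℝ (Fin n))) : Set (EuclideanSpace ℝ (Fin n)) :=
  {x | x ∈ Λ ∧ x ≠ 0 ∧ ∀ y ∈ Λ, y ≠ 0 → ‖x‖ ≤ ‖y‖}

lemma packing_of_min {Λ : AddSubgroup (EuclideanSpace ℝ (Fin n))} {x : EuclideanSpace ℝ (Fin n)}
    (hx : x ∈ minVecs Λ) : IsPacking (Λ : Set (EuclideanSpace ℝ (Fin n))) (‖x‖ / 2) := by
  obtain ⟨_, hx0, hmin⟩ := hx
  refine ⟨by have := norm_pos_iff.2 hx0; linarith, ?_⟩
  intro y hy z hz hyz
  simp only [Function.onFun]
  apply ball_disjoint_ball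
  have := hmin (y - z) (Λ.sub_mem hy hz) (sub_ne_zero.2 hyz)
  rw [dist_eq_norm]
  linarith

lemma card_min {a : ℕ} {C : ℕ → Finset (Finset (Fin n))} {K : ℕ}
    (hK : ∀ (n : ℕ) (_ : 0 < n) (a : ℕ) (C : ℕ → Finset (Finset (Fin n)))
    (Λ : AddSubgroup (EuclideanSpace ℝ (Fin n)))
    (_ : (Λ : Set (EuclideanSpace ℝ (Fin n))) = constructionC a C) (r : ℝ)
    (_ : IsPacking (Λ : Set (EuclideanSpace ℝ (Fin n))) r) (F : Finset (EuclideanSpace ℝ (Fin n)))
    (_ : ∀ x ∈ F, x ∈ Λ ∧ ‖x‖ = 2 * r), F.card ≤ K * n ^ 3) (hn : 0 < n)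
    {Λ : AddSubgroup (EuclideanSpace ℝ (Fin n))}
    (hΛ : (Λ : Set (EuclideanSpace ℝ (Fin n))) = constructionC a C) :
    (minVecs Λ).Finite ∧ (minVecs Λ).ncard ≤ K * n ^ 3 := by
  have hfin : ∀ F : Finset (EuclideanSpace ℝ (Fin n)), (F : Set _) ⊆ minVecs Λ → F.card ≤ K * n ^ 3 := by
    intro F hF
    rcases Finset.eq_empty_or_nonempty F with rfl | ⟨x, hx⟩
    · simp
    · apply hK n hn a C Λ hΛ (‖x‖ / 2) (packing_of_min (hF hx)) F
      intro y hy
      refine ⟨(hF hy).1, ?_⟩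
      have h1 := (hF hy).2.2 x (hF hx).1 (hF hx).2.1
      have h2 := (hF hx).2.2 y (hF hy).1 (hF hy).2.1
      linarith
  have h1 : (minVecs Λ).Finite := by
    by_contra hinf
    obtain ⟨F, hF, hc⟩ := Set.Infinite.exists_subset_card_eq hinf (K * n ^ 3 + 1)
    have := hfin F hF
    omega
  refine ⟨h1, ?_⟩
  rw [Set.ncard_eq_toFinset_card _ h1]
  apply hfin
  rw [Set.Finite.coe_toFinset]

lemma angle_min {Λ : AddSubgroup (EuclideanSpace ℝ (Fin n))} {x y : EuclideanSpace ℝ (Fin n)}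
    (hx : x ∈ minVecs Λ) (hy : y ∈ minVecs Λ) (hxy : x ≠ y) :
    Real.pi / 3 ≤ InnerProductGeometry.angle x y := by
  have hn : ‖x‖ = ‖y‖ := le_antisymm (hx.2.2 y hy.1 hy.2.1) (hy.2.2 x hx.1 hx.2.1)
  have h1 : ‖x‖ ≤ ‖x - y‖ := hx.2.2 _ (Λ.sub_mem hx.1 hy.1) (sub_ne_zero.2 hxy)
  have h2 : ‖x‖ ^ 2 ≤ ‖x - y‖ ^ 2 := pow_le_pow_left₀ (norm_nonneg _) h1 2
  rw [norm_sub_sq_real] at h2
  have hx0 : 0 < ‖x‖ := norm_pos_iff.2 hx.2.1
  rw [InnerProductGeometry.angle, ← Real.arccos_cos (x := Real.pi / 3) (by positivity)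
    (by linarith [Real.pi_pos]), Real.cos_pi_div_three]
  apply Real.arccos_le_arccos
  rw [← hn, div_le_iff₀ (by positivity)]
  rw [← hn] at h2
  nlinarith

/-- lattices with large kissing numbers -/
theorem low_bound (hn : 4 ≤ n) : ∃ (Λ : AddSubgroup (EuclideanSpace ℝ (Fin n)))
    (C : ℕ → Finset (Finset (Fin n))), (Λ : Set (EuclideanSpace ℝ (Fin n))) = constructionC 1 C ∧
      ∃ F : Finset (EuclideanSpace ℝ (Fin n)), (F : Set (EuclideanSpace ℝ (Fin n))) ⊆ minVecs Λ ∧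
        n ^ 3 ≤ 512 * F.card := by
  obtain ⟨d, hd1, hd2⟩ : ∃ d, 4 * 2 ^ d ≤ n ∧ n ≤ 8 * 2 ^ d := by
    refine ⟨Nat.log 2 (n / 4), ?_, ?_⟩
    · have := Nat.pow_log_le_self 2 (show n / 4 ≠ 0 by omega)
      omega
    · have := Nat.lt_pow_succ_log_self (b := 2) (by norm_num) (n / 4)
      rw [pow_succ] at this
      omega
  obtain ⟨ψ⟩ : Nonempty (V d ↪ Fin n) := by
    apply Function.Embedding.nonempty_of_card_le
    rw [Fintype.card_prod, Fintype.card_prod, Fintype.card_fun, ZMod.card, Fintype.card_fin,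
      Fintype.card_fin]
    omega
  have hψ := ψ.injective
  refine ⟨low ψ, fun _ => code ψ, rfl, pts ψ, ?_, ?_⟩
  · intro x hx
    obtain ⟨h1, h2⟩ := pts_mem hψ hx
    refine ⟨h1, ?_, ?_⟩
    · intro h
      rw [h, norm_zero] at h2
      norm_num at h2
    · intro y hy hy0
      rw [h2]
      exact low_norm hψ hy hy0
  · rw [card_pts hψ]
    calc n ^ 3 ≤ (8 * 2 ^ d) ^ 3 := Nat.pow_le_pow_left hd2 3
      _ = 512 * (2 ^ d) ^ 3 := by rw [mul_pow]; norm_num

end Pool.Agent.helper275_conc
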