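import Mathlib

/-! The matroid partition theorem for finite families of rank functions. -/

open Finset

namespace Pool.Agent.helper275_conc

variable {α : Type*} [DecidableEq α]

/-- rank functions of matroids -/
structure IsRank (f : Finset α → ℕ) : Prop where
  empty : f ∅ = 0
  mono : ∀ A B, A ⊆ B → f A ≤ f B
  insert_le : ∀ A e, f (insert e A) ≤ f A + 1
  sub : ∀ A B, f (A ∪ B) + f (A ∩ B) ≤ f A + f B

/-- contraction -/
def contract (f : Finset α → ℕ) (X : Finset α) (Y : Finset α) : ℕ := f (Y ∪ X) - f X

lemma IsRank.contract {f : Finset α → ℕ} (hf : IsRank f) (X : Finset α) : IsRank (contract f X) := by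
  constructor
  · simp [Pool.Agent.helper275_conc.contract]
  · intro A B hAB
    have := hf.mono (A ∪ X) (B ∪ X) (Finset.union_subset_union_left hAB)
    unfold Pool.Agent.helper275_conc.contract
    omega
  · intro A e
    have h1 := hf.insert_le (A ∪ X) e
    have h2 := hf.mono X (A ∪ X) Finset.subset_union_right
    unfold Pool.Agent.helper275_conc.contract
    rw [Finset.insert_union]
    omega
  · intro A B
    have h1 := hf.sub (A ∪ X) (B ∪ X)
    have e1 : A ∪ X ∪ (B ∪ X) = A ∪ B ∪ X := by
      ext x; simp only [Finset.mem_union]; tauto
    have e2 : (A ∪ X) ∩ (B ∪ X) = (A ∩ B) ∪ X := by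
      ext x; simp only [Finset.mem_union, Finset.mem_inter]; tauto
    rw [e1, e2] at h1
    have h2 := hf.mono X (A ∪ X) Finset.subset_union_right
    have h3 := hf.mono X (B ∪ X) Finset.subset_union_right
    have h4 := hf.mono X (A ∪ B ∪ X) Finset.subset_union_right
    have h5 := hf.mono X (A ∩ B ∪ X) Finset.subset_union_right
    unfold Pool.Agent.helper275_conc.contract
    omega

lemma isRank_min (m : ℕ) : IsRank (fun X : Finset α => min X.card m) := by
  constructor
  · simp
  · intro A B hAB
    have := Finset.card_le_card hAB
    omega
  · intro A e
    have := Finset.card_insert_le e A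
    omega
  · intro A B
    have h1 := Finset.card_union_add_card_inter A B
    have h2 := Finset.card_le_card (Finset.subset_union_left (s₁ := A) (s₂ := B))
    have h3 := Finset.card_le_card (Finset.subset_union_right (s₁ := A) (s₂ := B))
    have h4 := Finset.card_le_card (Finset.inter_subset_left (s₁ := A) (s₂ := B))
    omega

/-- **Matroid partition** -/
theorem partition {ι : Type*} [Fintype ι] [DecidableEq ι] : ∀ (m : ℕ) (S : Finset α)
    (f : ι → Finset α → ℕ), S.card = m → (∀ i, IsRank (f i)) →
    (∀ X ⊆ S, X.card ≤ ∑ i, f i X) →
    ∃ I : ι → Finset α, (∀ i, I i ⊆ S) ∧ (∀ x ∈ S, ∃ i, x ∈ I i) ∧ ∀ i, f i (I i) = (I i).card := by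
  intro m
  induction m using Nat.strong_induction_on with
  | _ m ih =>
    intro S f hS hf h
    rcases S.eq_empty_or_nonempty with rfl | hne
    · exact ⟨fun _ => ∅, fun _ => Finset.Subset.refl _, by simp, fun i => by simp [(hf i).empty]⟩
    by_cases hT : ∃ X ⊆ S, X.Nonempty ∧ X ≠ S ∧ X.card = ∑ i, f i X
    · -- a tight set
      obtain ⟨X, hXS, hXne, hXS', hXt⟩ := hT
      have hXlt : X.card < m := by
        rw [← hS]
        exact Finset.card_lt_card (Finset.ssubset_iff_subset_ne.2 ⟨hXS, hXS'⟩)
      obtain ⟨I, hI1, hI2, hI3⟩ := ih X.card hXlt X f rfl hf (fun Y hY => h Y (hY.trans hXS))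
      -- all `I i` are bases of `X`
      have hI4 : ∀ i, f i (I i) = f i X := by
        have h1 : ∀ i ∈ (univ : Finset ι), f i (I i) ≤ f i X := fun i _ => (hf i).mono _ _ (hI1 i)
        have h2 : ∑ i, f i X ≤ ∑ i, f i (I i) := by
          rw [← hXt]
          calc X.card ≤ (univ.biUnion I).card := by
                apply Finset.card_le_card
                intro x hx
                obtain ⟨i, hi⟩ := hI2 x hx
                exact Finset.mem_biUnion.2 ⟨i, Finset.mem_univ i, hi⟩
            _ ≤ ∑ i, (I i).card := Finset.card_biUnion_le
            _ = ∑ i, f i (I i) := Finset.sum_congr rfl fun i _ => (hI3 i).symm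
        have h3 := (Finset.sum_eq_sum_iff_of_le h1).1 (le_antisymm (Finset.sum_le_sum h1) h2)
        exact fun i => h3 i (Finset.mem_univ i)
      have hXpos := Finset.card_pos.2 hXne
      have hSXc : (S \ X).card < m := by
        rw [Finset.card_sdiff_of_subset hXS]
        omega
      obtain ⟨J, hJ1, hJ2, hJ3⟩ := ih (S \ X).card hSXc (S \ X) (fun i => contract (f i) X) rfl
        (fun i => (hf i).contract X) (by
          intro Y hY
          have hdisj : Disjoint Y X := Finset.disjoint_of_subset_left hY Finset.sdiff_disjoint
          have h1 := h (Y ∪ X) (Finset.union_subset (hY.trans Finset.sdiff_subset) hXS)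
          rw [Finset.card_union_of_disjoint hdisj, hXt] at h1
          have h2 : ∑ i, f i (Y ∪ X) = ∑ i, contract (f i) X Y + ∑ i, f i X := by
            rw [← Finset.sum_add_distrib]
            apply Finset.sum_congr rfl
            intro i _
            have := (hf i).mono X (Y ∪ X) Finset.subset_union_right
            unfold contract
            omega
          omega)
      refine ⟨fun i => I i ∪ J i, ?_, ?_, ?_⟩
      · intro i
        exact Finset.union_subset ((hI1 i).trans hXS) ((hJ1 i).trans Finset.sdiff_subset)
      · intro x hx
        by_cases hxX : x ∈ X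
        · obtain ⟨i, hi⟩ := hI2 x hxX
          exact ⟨i, Finset.mem_union_left _ hi⟩
        · obtain ⟨i, hi⟩ := hJ2 x (Finset.mem_sdiff.2 ⟨hx, hxX⟩)
          exact ⟨i, Finset.mem_union_right _ hi⟩
      · intro i
        show f i (I i ∪ J i) = (I i ∪ J i).card
        have hdisj : Disjoint (I i) (J i) :=
          Finset.disjoint_of_subset_left (hI1 i)
            (Finset.disjoint_of_subset_right (hJ1 i) Finset.disjoint_sdiff)
        rw [Finset.card_union_of_disjoint hdisj, ← hI3 i, ← hJ3 i]
        have h1 := (hf i).sub X (I i ∪ J i)
        have h2 := (hf i).mono (I i) (X ∩ (I i ∪ J i))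
          (Finset.subset_inter (hI1 i) Finset.subset_union_left)
        have h3 := (hf i).mono (I i ∪ J i) (X ∪ (I i ∪ J i)) Finset.subset_union_right
        have e1 : X ∪ (I i ∪ J i) = J i ∪ X := by
          ext x
          simp only [Finset.mem_union]
          have h7 : x ∈ I i → x ∈ X := fun h => hI1 i h
          tauto
        rw [e1] at h1 h3
        have h4 := (hf i).mono X (J i ∪ X) Finset.subset_union_right
        have h5 := hI4 i
        unfold contract
        omega
    · -- no tight set
      push Not at hT
      obtain ⟨e, he⟩ := hne
      have h1 := h {e} (Finset.singleton_subset_iff.2 he)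
      rw [Finset.card_singleton] at h1
      obtain ⟨i0, -, hi0⟩ : ∃ i ∈ (univ : Finset ι), 0 < f i {e} := by
        by_contra hcon
        push Not at hcon
        have : ∑ i, f i {e} = 0 := Finset.sum_eq_zero fun i hi => Nat.le_zero.1 (hcon i hi)
        omega
      have hfe : f i0 {e} = 1 := by
        have := (hf i0).insert_le ∅ e
        rw [(hf i0).empty] at this
        simp only [insert_empty_eq, zero_add] at this
        omega
      set g : ι → Finset α → ℕ := fun i => if i = i0 then contract (f i0) {e} else f i with hg
      have hgr : ∀ i, IsRank (g i) := by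
        intro i
        simp only [hg]
        split_ifs
        · exact (hf i0).contract _
        · exact hf i
      have hSe : (S.erase e).card < m := by
        rw [Finset.card_erase_of_mem he]
        have := Finset.card_pos.2 ⟨e, he⟩
        omega
      obtain ⟨I, hI1, hI2, hI3⟩ := ih (S.erase e).card hSe (S.erase e) g rfl hgr (by
        intro Y hY
        rcases Y.eq_empty_or_nonempty with rfl | hYne
        · simp
        · have hYS : Y ⊆ S := hY.trans (Finset.erase_subset _ _)
          have hYe : e ∉ Y := fun h => Finset.notMem_erase e S (hY h)
          have hYS' : Y ≠ S := fun h => hYe (h ▸ he)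
          have h2 := h Y hYS
          have h3 := hT Y hYS hYne hYS'
          have h4 : ∑ i, f i Y ≤ ∑ i, g i Y + 1 := by
            have h5 : ∀ i ∈ (univ : Finset ι), f i Y ≤ g i Y + (if i = i0 then 1 else 0) := by
              intro i _
              simp only [hg]
              split_ifs with h6
              · subst h6
                have := (hf i).mono Y (Y ∪ {e}) Finset.subset_union_left
                have h7 := (hf i).mono {e} (Y ∪ {e}) Finset.subset_union_right
                unfold contract
                omega
              · omega
            have h6 := Finset.sum_le_sum h5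
            rw [Finset.sum_add_distrib, Finset.sum_ite_eq'] at h6
            simpa using h6
          omega)
      refine ⟨fun i => if i = i0 then insert e (I i) else I i, ?_, ?_, ?_⟩
      · intro i
        simp only
        split_ifs
        · exact Finset.insert_subset he ((hI1 i).trans (Finset.erase_subset _ _))
        · exact (hI1 i).trans (Finset.erase_subset _ _)
      · intro x hx
        by_cases hxe : x = e
        · exact ⟨i0, by simp [hxe]⟩
        · obtain ⟨i, hi⟩ := hI2 x (Finset.mem_erase.2 ⟨hxe, hx⟩)
          refine ⟨i, ?_⟩
          simp only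
          split_ifs
          · exact Finset.mem_insert_of_mem hi
          · exact hi
      · intro i
        have h2 := hI3 i
        simp only [hg] at h2 ⊢
        split_ifs at h2 ⊢ with h3
        · subst h3
          have he' : e ∉ I i := fun h => Finset.notMem_erase e S (hI1 i h)
          rw [Finset.card_insert_of_notMem he', ← h2]
          have h4 := (hf i).mono {e} (I i ∪ {e}) Finset.subset_union_right
          have e1 : insert e (I i) = I i ∪ {e} := by
            ext x; simp only [Finset.mem_insert, Finset.mem_union, Finset.mem_singleton]; tauto
          rw [e1]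
          unfold contract
          omega
        · exact h2

end Pool.Agent.helper275_conc
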