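import Pool.Agent.helper275_conc.Code
import Pool.Agent.helper275_codes.Pam

/-! Construction C and its lattices. -/

open MeasureTheory Metric Filter Finset
open scoped Topology

namespace Pool.Agent.helper275_conc
open Pool.Agent.H818R2

/-- The centres of Construction C: the integer points whose `i`-th binary digits form a word of the
code `C i`, for all `i < a`. A binary word is given by the set of its coordinates equal to `1`. -/
def constructionC {n : ℕ} (a : ℕ) (C : ℕ → Finset (Finset (Fin n))) :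
    Set (EuclideanSpace ℝ (Fin n)) :=
  {x | ∃ (c : ℕ → Finset (Fin n)) (z : Fin n → ℤ), (∀ i < a, c i ∈ C i) ∧
    ∀ k, x k = ∑ i ∈ range a, 2 ^ i * (if k ∈ c i then (1 : ℝ) else 0) + 2 ^ a * z k}

variable {n : ℕ}

/-- binary digits are unique -/
lemma digits_unique : ∀ (a : ℕ) (b b' : ℕ → ℤ) (z z' : ℤ), (∀ l, b l = 0 ∨ b l = 1) →
    (∀ l, b' l = 0 ∨ b' l = 1) →
    ∑ l ∈ range a, 2 ^ l * b l + 2 ^ a * z = ∑ l ∈ range a, 2 ^ l * b' l + 2 ^ a * z' →
    ∀ l < a, b l = b' l := by
  intro a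
  induction a with
  | zero => intro b b' z z' _ _ _ l hl; omega
  | succ a ih =>
    intro b b' z z' hb hb' h l hl
    rw [Finset.sum_range_succ', Finset.sum_range_succ'] at h
    have e1 : ∀ f : ℕ → ℤ, ∑ l ∈ range a, 2 ^ (l + 1) * f (l + 1) =
        2 * ∑ l ∈ range a, 2 ^ l * f (l + 1) := by
      intro f
      rw [Finset.mul_sum]
      apply Finset.sum_congr rfl
      intro l _
      ring
    rw [e1, e1, pow_succ] at h
    simp only [pow_zero, one_mul] at h
    have h0 : b 0 = b' 0 := by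
      have h1 : b 0 - b' 0 = 2 * (∑ l ∈ range a, 2 ^ l * b' (l + 1) + 2 ^ a * z' -
          ∑ l ∈ range a, 2 ^ l * b (l + 1) - 2 ^ a * z) := by linarith
      rcases hb 0 with h2 | h2 <;> rcases hb' 0 with h3 | h3 <;> rw [h2, h3] at h1 ⊢ <;> omega
    rcases Nat.eq_zero_or_pos l with rfl | hl0
    · exact h0
    · obtain ⟨m, rfl⟩ : ∃ m, l = m + 1 := ⟨l - 1, by omega⟩
      refine ih (fun l => b (l + 1)) (fun l => b' (l + 1)) z z' (fun l => hb _) (fun l => hb' _) ?_ m
        (by omega)
      rw [h0] at h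
      linarith

/-- two representations of one point have the same digits -/
lemma rep_unique {a : ℕ} {x : EuclideanSpace ℝ (Fin n)} {c c' : ℕ → Finset (Fin n)}
    {z z' : Fin n → ℤ}
    (h : ∀ k, x k = ∑ i ∈ range a, 2 ^ i * (if k ∈ c i then (1 : ℝ) else 0) + 2 ^ a * z k)
    (h' : ∀ k, x k = ∑ i ∈ range a, 2 ^ i * (if k ∈ c' i then (1 : ℝ) else 0) + 2 ^ a * z' k) :
    ∀ i < a, c i = c' i := by
  intro i hi
  ext k
  have h1 := digits_unique a (fun i => if k ∈ c i then 1 else 0) (fun i => if k ∈ c' i then 1 else 0)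
    (z k) (z' k) (fun l => by by_cases h : k ∈ c l <;> simp [h])
    (fun l => by by_cases h : k ∈ c' l <;> simp [h]) (by
      have h2 := (h k).symm.trans (h' k)
      have h3 : ((∑ l ∈ range a, 2 ^ l * (if k ∈ c l then (1 : ℤ) else 0) + 2 ^ a * z k : ℤ) : ℝ) =
          ((∑ l ∈ range a, 2 ^ l * (if k ∈ c' l then (1 : ℤ) else 0) + 2 ^ a * z' k : ℤ) : ℝ) := by
        push_cast
        exact h2
      exact_mod_cast h3) i hi
  by_cases h2 : k ∈ c i <;> by_cases h3 : k ∈ c' i <;> simp [h2, h3] at h1 ⊢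

variable {a : ℕ} {C : ℕ → Finset (Finset (Fin n))} {Λ : AddSubgroup (EuclideanSpace ℝ (Fin n))}

lemma empty_mem (hΛ : (Λ : Set (EuclideanSpace ℝ (Fin n))) = constructionC a C) {i : ℕ} (hi : i < a) :
    ∅ ∈ C i := by
  have h0 : (0 : EuclideanSpace ℝ (Fin n)) ∈ constructionC a C := by
    rw [← hΛ]; exact Λ.zero_mem
  obtain ⟨c, z, hc, hx⟩ := h0
  have := rep_unique hx (c' := fun _ => ∅) (z' := fun _ => 0) (fun k => by simp) i hi
  rw [← this]
  exact hc i hi

/-- the point `2^i 1_A` -/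
noncomputable def pt (i : ℕ) (A : Finset (Fin n)) : EuclideanSpace ℝ (Fin n) :=
  WithLp.toLp 2 (fun k => 2 ^ i * (if k ∈ A then (1 : ℝ) else 0))

lemma pt_mem (hΛ : (Λ : Set (EuclideanSpace ℝ (Fin n))) = constructionC a C) {i : ℕ} (hi : i < a)
    {A : Finset (Fin n)} (hA : A ∈ C i) : pt i A ∈ Λ := by
  have : pt i A ∈ constructionC a C := by
    refine ⟨fun l => if l = i then A else ∅, fun _ => 0, ?_, ?_⟩
    · intro l hl
      by_cases h : l = i
      · subst h; simpa using hA
      · simp only [h, if_false]; exact empty_mem hΛ hl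
    · intro k
      rw [Finset.sum_eq_single i]
      · simp [pt]
      · intro l _ hl
        simp [hl]
      · intro h
        exact absurd (Finset.mem_range.2 hi) h
  rw [← hΛ] at this
  exact this

/-- closure properties of the codes of a lattice -/
lemma closure_codes (hΛ : (Λ : Set (EuclideanSpace ℝ (Fin n))) = constructionC a C) {i : ℕ}
    (hi : i < a) {A B : Finset (Fin n)} (hA : A ∈ C i) (hB : B ∈ C i) :
    symmDiff A B ∈ C i ∧ (i + 1 < a → A ∩ B ∈ C (i + 1)) := by
  have h1 : pt i A + pt i B ∈ constructionC a C := by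
    rw [← hΛ]
    exact Λ.add_mem (pt_mem hΛ hi hA) (pt_mem hΛ hi hB)
  obtain ⟨c, z, hc, hx⟩ := h1
  set c' : ℕ → Finset (Fin n) := fun l => if l = i then symmDiff A B else
    if l = i + 1 then A ∩ B else ∅ with hc'
  set z' : Fin n → ℤ := fun k => if i + 1 = a then (if k ∈ A ∩ B then 1 else 0) else 0 with hz'
  have hx' : ∀ k, (pt i A + pt i B) k =
      ∑ l ∈ range a, 2 ^ l * (if k ∈ c' l then (1 : ℝ) else 0) + 2 ^ a * z' k := by
    intro k
    have e1 : (pt i A + pt i B) k = 2 ^ i * (if k ∈ symmDiff A B then (1 : ℝ) else 0) +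
        2 ^ (i + 1) * (if k ∈ A ∩ B then (1 : ℝ) else 0) := by
      simp only [pt, PiLp.add_apply]
      by_cases h1 : k ∈ A <;> by_cases h2 : k ∈ B <;>
        simp [h1, h2, Finset.mem_symmDiff, pow_succ] <;> ring
    have e2 : ∀ l, (2 : ℝ) ^ l * (if k ∈ c' l then (1 : ℝ) else 0) =
        (if l = i then 2 ^ i * (if k ∈ symmDiff A B then (1 : ℝ) else 0) else 0) +
        (if l = i + 1 then 2 ^ (i + 1) * (if k ∈ A ∩ B then (1 : ℝ) else 0) else 0) := by
      intro l
      simp only [hc']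
      by_cases h1 : l = i
      · subst h1
        have : ¬ (l = l + 1) := by omega
        simp [this]
      · by_cases h2 : l = i + 1
        · subst h2
          simp
        · simp [h1, h2]
    rw [e1, Finset.sum_congr rfl (fun l _ => e2 l), Finset.sum_add_distrib, Finset.sum_ite_eq',
      Finset.sum_ite_eq', if_pos (Finset.mem_range.2 hi)]
    by_cases h : i + 1 = a
    · have h3 : ¬ (i + 1 ∈ range a) := by rw [h]; simp
      rw [if_neg h3]
      simp only [hz', h, if_true]
      push_cast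
      ring
    · have h3 : i + 1 ∈ range a := Finset.mem_range.2 (by omega)
      rw [if_pos h3]
      simp [hz', h]
  have hu := rep_unique hx hx'
  constructor
  · have := hu i hi
    simp only [hc', if_true] at this
    rw [← this]; exact hc i hi
  · intro h
    have h2 := hu (i + 1) h
    have h3 : ¬ (i + 1 = i) := by omega
    simp only [hc', h3, if_false, if_true] at h2
    rw [← h2]; exact hc (i + 1) h

lemma closed_codes (hΛ : (Λ : Set (EuclideanSpace ℝ (Fin n))) = constructionC a C) {i : ℕ}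
    (hi : i < a) : Closed (C i) := fun _ hA _ hB => (closure_codes hΛ hi hA hB).1

/-- intersections of at most `2^j` members of `C i` are in `C (i+j)` -/
lemma inter_mem (hΛ : (Λ : Set (EuclideanSpace ℝ (Fin n))) = constructionC a C) {i : ℕ} {t : ℕ}
    {F : Fin t → Finset (Fin n)} (hF : ∀ l, F l ∈ C i) : ∀ (j : ℕ) (T : Finset (Fin t)),
    T.Nonempty → T.card ≤ 2 ^ j → i + j < a →
    univ.filter (fun k => ∀ l ∈ T, k ∈ F l) ∈ C (i + j) := by
  intro j
  induction j with
  | zero =>
    intro T hT hTc _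
    have h1 : T.card = 1 := by
      have := Finset.card_pos.2 hT
      simp at hTc
      omega
    obtain ⟨l, rfl⟩ := Finset.card_eq_one.1 h1
    have : univ.filter (fun k => ∀ l' ∈ ({l} : Finset (Fin t)), k ∈ F l') = F l := by
      ext k; simp
    rw [this]
    exact hF l
  | succ j ih =>
    intro T hT hTc hij
    rcases Nat.lt_or_ge T.card 2 with h1 | h1
    · have h2 := ih T hT (by
        have : 1 ≤ 2 ^ j := Nat.one_le_two_pow
        omega) (by omega)
      have h3 := (closure_codes hΛ (by omega) h2 h2).2 (by omega)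
      rw [Finset.inter_self] at h3
      exact h3
    · -- split into two parts
      have hp : 1 ≤ 2 ^ j := Nat.one_le_two_pow
      obtain ⟨T1, hT1, hT1c⟩ := Finset.exists_subset_card_eq
        (show min (T.card - 1) (2 ^ j) ≤ T.card by omega)
      have e : T1 ∪ (T \ T1) = T := Finset.union_sdiff_of_subset hT1
      have hc2 : (T \ T1).card = T.card - T1.card := Finset.card_sdiff_of_subset hT1
      have hTc' : T.card ≤ 2 * 2 ^ j := by rw [pow_succ] at hTc; omega
      have n1 : T1.Nonempty := Finset.card_pos.1 (by omega)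
      have n2 : (T \ T1).Nonempty := Finset.card_pos.1 (by omega)
      have m1 := ih T1 n1 (by omega) (by omega)
      have m2 := ih (T \ T1) n2 (by omega) (by omega)
      have h3 := (closure_codes hΛ (by omega) m1 m2).2 (by omega)
      have e2 : univ.filter (fun k => ∀ l ∈ T1, k ∈ F l) ∩
          univ.filter (fun k => ∀ l ∈ T \ T1, k ∈ F l) = univ.filter (fun k => ∀ l ∈ T, k ∈ F l) := by
        ext k
        simp only [Finset.mem_inter, Finset.mem_filter, Finset.mem_univ, true_and]
        rw [← Finset.forall_mem_union, e]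
      rw [e2] at h3
      exact h3

lemma norm_pt (i : ℕ) (A : Finset (Fin n)) : ‖pt i A‖ ^ 2 = 4 ^ i * A.card := by
  rw [EuclideanSpace.norm_eq, Real.sq_sqrt (Finset.sum_nonneg fun _ _ => sq_nonneg _)]
  have : ∀ k, ‖(pt i A) k‖ ^ 2 = if k ∈ A then (4 : ℝ) ^ i else 0 := by
    intro k
    simp only [pt, Real.norm_eq_abs, sq_abs]
    by_cases h : k ∈ A
    · simp only [h, if_true, mul_one]
      rw [← pow_mul, mul_comm, pow_mul]; norm_num
    · simp [h]
  rw [Finset.sum_congr rfl (fun k _ => this k), Finset.sum_ite_mem, Finset.univ_inter]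
  simp [mul_comm]

/-- separation in a lattice packing -/
lemma four_le {r : ℝ} (hP : IsPacking (Λ : Set (EuclideanSpace ℝ (Fin n))) r)
    {x : EuclideanSpace ℝ (Fin n)} (hx : x ∈ Λ) (hx0 : x ≠ 0) : (2 * r) ^ 2 ≤ ‖x‖ ^ 2 := by
  have hr := hP.1
  have h1 := hP.2 (show x ∈ (Λ : Set (EuclideanSpace ℝ (Fin n))) from hx)
    (show (0 : EuclideanSpace ℝ (Fin n)) ∈ (Λ : Set (EuclideanSpace ℝ (Fin n))) from Λ.zero_mem) hx0
  have h2 : 2 * r ≤ ‖x‖ := by
    by_contra hcon
    push Not at hcon
    have hm : (1 / 2 : ℝ) • x ∈ ball x r ∩ ball 0 r := by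
      have e1 : ‖(1 / 2 : ℝ) • x‖ = ‖x‖ / 2 := by
        rw [norm_smul]; norm_num; ring
      refine ⟨?_, ?_⟩
      · rw [mem_ball, dist_eq_norm]
        have : (1 / 2 : ℝ) • x - x = -((1 / 2 : ℝ) • x) := by
          have : x = (1 / 2 : ℝ) • x + (1 / 2 : ℝ) • x := by rw [← add_smul]; norm_num
          nth_rewrite 2 [this]
          abel
        rw [this, norm_neg, e1]
        linarith
      · rw [mem_ball, dist_zero_right, e1]
        linarith
    exact (Set.disjoint_left.1 h1) hm.1 hm.2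
  exact pow_le_pow_left₀ (by linarith) h2 2

/-- the weights of the codes -/
lemma weight_ge (hΛ : (Λ : Set (EuclideanSpace ℝ (Fin n))) = constructionC a C) {r : ℝ}
    (hP : IsPacking (Λ : Set (EuclideanSpace ℝ (Fin n))) r) {i : ℕ} (hi : i < a)
    {A : Finset (Fin n)} (hA : A ∈ C i) (hA0 : A.Nonempty) : (2 * r) ^ 2 ≤ 4 ^ i * A.card := by
  rw [← norm_pt i A]
  apply four_le hP (pt_mem hΛ hi hA)
  intro h
  have := norm_pt i A
  rw [h, norm_zero] at this
  have h2 : (0 : ℝ) < A.card := by exact_mod_cast Finset.card_pos.2 hA0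
  have h3 : (0 : ℝ) < 4 ^ i := by positivity
  nlinarith

lemma top_ge (hn : 0 < n) (hΛ : (Λ : Set (EuclideanSpace ℝ (Fin n))) = constructionC a C) {r : ℝ}
    (hP : IsPacking (Λ : Set (EuclideanSpace ℝ (Fin n))) r) : (2 * r) ^ 2 ≤ 4 ^ a := by
  have hm : pt a ({⟨0, hn⟩} : Finset (Fin n)) ∈ Λ := by
    have : pt a ({⟨0, hn⟩} : Finset (Fin n)) ∈ constructionC a C := by
      refine ⟨fun _ => ∅, fun k => if k = ⟨0, hn⟩ then 1 else 0, fun i hi => empty_mem hΛ hi, ?_⟩
      intro k
      by_cases h : k = ⟨0, hn⟩ <;> simp [pt, h]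
    rw [← hΛ] at this
    exact this
  have h1 := norm_pt a ({⟨0, hn⟩} : Finset (Fin n))
  simp only [Finset.card_singleton, Nat.cast_one, mul_one] at h1
  rw [← h1]
  apply four_le hP hm
  intro h
  rw [h, norm_zero] at h1
  have h3 : (0 : ℝ) < 4 ^ a := by positivity
  nlinarith

/-- the dimension of the codes -/
lemma dim_le (hn : 0 < n) (hΛ : (Λ : Set (EuclideanSpace ℝ (Fin n))) = constructionC a C) {r : ℝ}
    (hP : IsPacking (Λ : Set (EuclideanSpace ℝ (Fin n))) r) {i : ℕ} (hi : i < a) {j : ℕ}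
    (hj : j = 0 ∨ (8 : ℝ) ^ j * 4 ^ i ≤ (2 * r) ^ 2) :
    2 ^ j * Module.finrank (ZMod 2) (toSub (C i) (closed_codes hΛ hi) (empty_mem hΛ hi)) ≤ n := by
  rcases Nat.eq_zero_or_pos j with rfl | hj0
  · have := Submodule.finrank_le (toSub (C i) (closed_codes hΛ hi) (empty_mem hΛ hi))
    rw [Module.finrank_fin_fun] at this
    simpa using this
  · have hj' : (8 : ℝ) ^ j * 4 ^ i ≤ (2 * r) ^ 2 := hj.resolve_left (by omega)
    by_contra hcon
    push Not at hcon
    have ht : 2 ≤ 2 ^ j := by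
      calc 2 = 2 ^ 1 := rfl
        _ ≤ 2 ^ j := Nat.pow_le_pow_right (by norm_num) hj0
    obtain ⟨c, hc, hne, hcard⟩ := small_product _ ht hcon
    have h8 : (8 : ℝ) ^ j = 4 ^ j * 2 ^ j := by rw [← mul_pow]; norm_num
    have hp4 : (0 : ℝ) < 4 ^ j := by positivity
    have hp4i : (0 : ℝ) < 4 ^ i := by positivity
    have hcard' : ((inter fun l => supp (c l)).card : ℝ) ≤ 2 ^ j - 1 := by
      have h1 : (inter fun l => supp (c l)).card + 1 ≤ 2 ^ j := by omega
      have h2 : (((inter fun l => supp (c l)).card + 1 : ℕ) : ℝ) ≤ ((2 ^ j : ℕ) : ℝ) := by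
        exact_mod_cast h1
      push_cast at h2
      linarith
    have hne' : (1 : ℝ) ≤ ((inter fun l => supp (c l)).card : ℝ) := by
      exact_mod_cast Finset.card_pos.2 hne
    have key : (2 * r) ^ 2 ≤ 4 ^ (i + j) * (inter fun l => supp (c l)).card := by
      rcases Nat.lt_or_ge (i + j) a with h1 | h1
      · haveI : Nonempty (Fin (2 ^ j)) := ⟨⟨0, by positivity⟩⟩
        have h2 := inter_mem hΛ (F := fun l => supp (c l)) (fun l => hc l) j univ
          Finset.univ_nonempty (by simp) h1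
        have e : univ.filter (fun k => ∀ l ∈ (univ : Finset (Fin (2 ^ j))), k ∈ supp (c l)) =
            inter fun l => supp (c l) := by
          ext k; simp [inter]
        rw [e] at h2
        exact weight_ge hΛ hP h1 h2 hne
      · have h2 := top_ge hn hΛ hP
        have h3 : (4 : ℝ) ^ a ≤ 4 ^ (i + j) := pow_le_pow_right₀ (by norm_num) h1
        have h5 : (0 : ℝ) < 4 ^ (i + j) := by positivity
        nlinarith
    have h6 : (4 : ℝ) ^ (i + j) * (inter fun l => supp (c l)).card ≤ 4 ^ (i + j) * (2 ^ j - 1) :=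
      mul_le_mul_of_nonneg_left hcard' (by positivity)
    have h7 : (4 : ℝ) ^ (i + j) * (2 ^ j - 1) = 8 ^ j * 4 ^ i - 4 ^ (i + j) := by
      rw [h8, pow_add]; ring
    have h9 : (0 : ℝ) < 4 ^ (i + j) := by positivity
    linarith

end Pool.Agent.helper275_conc
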